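import Pool.Agent.H402.WlStrict

set_option autoImplicit false

namespace Pool.Agent.Results.MP_658dbf_an.PteCriterionExactUpToSix

open Real Finset MeasureTheory intervalIntegral Polynomial
open Pool.Agent.H402.Wl (J J0_eq E E_ge_zero' E_zero lower lower_strict upper_five Lk Lk_closed Lk_eq norm_rpow
  attained_of_pte pte_of_attained)

/-- The set of values of the weighted integral over all monic integer polynomials. -/
def values (lam : ℝ) : Set ℝ :=
  {x | ∃ P : Polynomial ℤ, P.Monic ∧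
    x = ∫ θ in (-π)..π, ‖(1 : ℂ) - Complex.exp (θ * Complex.I)‖ ^ (2 * lam)
      * ‖aeval (Complex.exp (θ * Complex.I)) P‖ ^ 2}

/-- The explicit function `L(λ) = 4πλ Γ(2{λ}+1) / (Γ({λ}+1) Γ({λ}+2))`, `{λ}` the fractional part. -/
noncomputable def L (lam : ℝ) : ℝ :=
  4 * π * lam * Real.Gamma (2 * Int.fract lam + 1)
    / (Real.Gamma (Int.fract lam + 1) * Real.Gamma (Int.fract lam + 2))

/-- `A`, `B` are disjoint sets of `n` integers with equal power sums of orders `0, ..., n-1`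
(an ideal Prouhet-Tarry-Escott solution of size `n` with `2n` distinct entries). -/
def IdealPTE (n : ℕ) (A B : Finset ℤ) : Prop :=
  A.card = n ∧ B.card = n ∧ Disjoint A B ∧ ∀ l : ℕ, l < n → ∑ a ∈ A, a ^ l = ∑ b ∈ B, b ^ l

lemma val_eq (lam : ℝ) (P : ℤ[X]) : ∫ θ in (-π)..π, ‖(1 : ℂ) - Complex.exp (θ * Complex.I)‖ ^ (2 * lam)
      * ‖aeval (Complex.exp (θ * Complex.I)) P‖ ^ 2 = E lam P := by
  unfold E
  congr 1; ext θ; rw [norm_rpow]

lemma mem_values (lam x : ℝ) : x ∈ values lam ↔ ∃ P : ℤ[X], P.Monic ∧ x = E lam P := by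
  unfold values
  simp only [Set.mem_ofPred_eq, val_eq]

lemma L_eq (lam : ℝ) (h : 1 ≤ lam) : L lam = Lk ⌊lam⌋₊ (Int.fract lam) ∧ (⌊lam⌋₊ : ℝ) + Int.fract lam = lam := by
  have h1 : (⌊lam⌋₊ : ℝ) + Int.fract lam = lam := by
    rw [← Int.self_sub_floor, natCast_floor_eq_intCast_floor (by linarith)]; ring
  refine ⟨?_, h1⟩
  rw [Lk_closed _ _ (Int.fract_nonneg lam), h1]; rfl

lemma L_nat (n : ℕ) : L n = 4 * π * n := by
  unfold L
  rw [Int.fract_natCast]
  norm_num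

lemma glb_of (lam : ℝ) (k : ℕ) (hk : 1 ≤ k) (hk5 : k ≤ 5) (s : ℝ) (h0 : 0 ≤ s) (h1 : s ≤ 1) (hlam : lam = k + s) :
    IsGLB (values lam) (Lk k s) := by
  subst hlam
  constructor
  · intro x hx
    rw [mem_values] at hx
    obtain ⟨P, hP, rfl⟩ := hx
    exact lower k hk s h0 h1 P hP.ne_zero
  · intro b hb
    apply upper_five k hk hk5 s h0 h1 b
    intro P hP
    exact hb ((mem_values _ _).2 ⟨P, hP, rfl⟩)

lemma low (lam : ℝ) (h : 1 ≤ lam) : L lam ∈ lowerBounds (values lam) := by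
  intro x hx
  rw [mem_values] at hx
  obtain ⟨P, hP, rfl⟩ := hx
  obtain ⟨h1, h2⟩ := L_eq lam h
  have h3 := lower ⌊lam⌋₊ (Nat.floor_pos.2 h) (Int.fract lam) (Int.fract_nonneg _) (Int.fract_lt_one _).le P hP.ne_zero
  rw [h2] at h3
  rw [h1]; exact h3

lemma int_iff (n : ℕ) (hn : 1 ≤ n) :
    IsLeast (values n) (4 * π * n) ↔ ∃ A B : Finset ℤ, IdealPTE n A B := by
  constructor
  · rintro ⟨h1, -⟩
    rw [mem_values] at h1
    obtain ⟨P, hP, hE⟩ := h1
    obtain ⟨A, B, hAB⟩ := pte_of_attained n hn P hP (by rw [add_zero]; exact hE.symm)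
    exact ⟨A, B, hAB⟩
  · rintro ⟨A, B, hAB⟩
    obtain ⟨P, hP, hE⟩ := attained_of_pte n hn A B hAB
    rw [add_zero] at hE
    refine ⟨(mem_values _ _).2 ⟨P, hP, hE.symm⟩, ?_⟩
    have := low n (by exact_mod_cast hn)
    rwa [L_nat] at this

lemma pte_examples (n : ℕ) (hn : n ∈ ({1, 2, 3, 4, 5, 6, 7, 8, 9, 10, 12} : Finset ℕ)) :
    ∃ A B : Finset ℤ, IdealPTE n A B := by
  simp only [Finset.mem_insert, Finset.mem_singleton] at hn
  rcases hn with rfl | rfl | rfl | rfl | rfl | rfl | rfl | rfl | rfl | rfl | rfl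
  · exact ⟨{0}, {1}, by unfold IdealPTE; decide⟩
  · exact ⟨{0, 3}, {1, 2}, by unfold IdealPTE; decide⟩
  · exact ⟨{0, 4, 5}, {1, 2, 6}, by unfold IdealPTE; decide⟩
  · exact ⟨{0, 4, 7, 11}, {1, 2, 9, 10}, by unfold IdealPTE; decide⟩
  · exact ⟨{0, 4, 8, 16, 17}, {1, 2, 10, 14, 18}, by unfold IdealPTE; decide⟩
  · exact ⟨{0, 5, 6, 16, 17, 22}, {1, 2, 10, 12, 20, 21}, by unfold IdealPTE; decide⟩
  · exact ⟨{0, 18, 27, 58, 64, 89, 101}, {1, 13, 38, 44, 75, 84, 102}, by unfold IdealPTE; decide⟩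
  · exact ⟨{0, 4, 9, 23, 27, 41, 46, 50}, {1, 2, 11, 20, 30, 39, 48, 49}, by unfold IdealPTE; decide⟩
  · exact ⟨{0, 24, 30, 83, 86, 133, 157, 181, 197}, {1, 17, 41, 65, 112, 115, 168, 174, 198}, by
      unfold IdealPTE; decide⟩
  · exact ⟨{0, 3083, 3301, 11893, 23314, 24186, 35607, 44199, 44417, 47500},
      {12, 2865, 3519, 11869, 23738, 23762, 35631, 43981, 44635, 47488}, by unfold IdealPTE; decide⟩
  · exact ⟨{0, 11, 24, 65, 90, 129, 173, 212, 237, 278, 291, 302},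
      {3, 5, 30, 57, 104, 116, 186, 198, 245, 272, 297, 299}, by unfold IdealPTE; decide⟩

theorem result :
    -- exact value, attained, for `0 < λ ≤ 1`
    (∀ lam : ℝ, 0 < lam → lam ≤ 1 →
      IsLeast (values lam) (2 * π * Real.Gamma (2 * lam + 1) / Real.Gamma (lam + 1) ^ 2)) ∧
    -- exact value for `1 ≤ λ ≤ 6`
    (∀ lam : ℝ, 1 ≤ lam → lam ≤ 6 → IsGLB (values lam) (L lam)) ∧
    -- lower bound for every `λ ≥ 1`, strict when `λ` is not an integer
    (∀ lam : ℝ, 1 ≤ lam → L lam ∈ lowerBounds (values lam)) ∧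
    (∀ lam : ℝ, 1 ≤ lam → Int.fract lam ≠ 0 → L lam ∉ values lam) ∧
    -- integer `λ = n`: `L n = 4πn`, and it is the value iff there is an ideal PTE solution of size `n`
    (∀ n : ℕ, L n = 4 * π * n) ∧
    (∀ n : ℕ, 1 ≤ n → (IsLeast (values n) (4 * π * n) ↔ ∃ A B : Finset ℤ, IdealPTE n A B)) ∧
    (∀ n ∈ ({1, 2, 3, 4, 5, 6, 7, 8, 9, 10, 12} : Finset ℕ), IsLeast (values n) (4 * π * n)) := by
  refine ⟨?_, ?_, low, ?_, L_nat, int_iff, ?_⟩
  · intro lam h0 h1
    rw [← J0_eq lam h0.le]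
    constructor
    · rw [mem_values]
      refine ⟨1, monic_one, ?_⟩
      rw [Pool.Agent.H402.Wl.f_zero_eq]
      unfold E; simp
    · intro x hx
      rw [mem_values] at hx
      obtain ⟨P, hP, rfl⟩ := hx
      exact E_ge_zero' lam h0.le h1 P hP.ne_zero
  · intro lam h1 h6
    rcases eq_or_lt_of_le h6 with h | h
    · subst h
      have h2 : L 6 = Lk 5 1 := by
        have := L_nat 6
        push_cast at this
        rw [this, Lk_eq 5 1 zero_le_one, J0_eq 1 zero_le_one]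
        have h3 : Real.Gamma (2*1+1) = 2 := by
          have := Real.Gamma_nat_eq_factorial 2
          norm_num at this ⊢
        have h4 : Real.Gamma (1+1) = 1 := by
          have := Real.Gamma_nat_eq_factorial 1
          norm_num at this ⊢
        rw [h3, h4]; norm_num; ring
      rw [h2]
      exact glb_of 6 5 (by norm_num) le_rfl 1 zero_le_one le_rfl (by norm_num)
    · obtain ⟨h2, h3⟩ := L_eq lam h1
      rw [h2]
      have hfl : ⌊lam⌋₊ < 6 := (Nat.floor_lt (by linarith)).2 (by exact_mod_cast h)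
      exact glb_of lam ⌊lam⌋₊ (Nat.floor_pos.2 h1) (by omega) _ (Int.fract_nonneg _) (Int.fract_lt_one _).le h3.symm
  · intro lam h1 hf hmem
    rw [mem_values] at hmem
    obtain ⟨P, hP, hE⟩ := hmem
    obtain ⟨h2, h3⟩ := L_eq lam h1
    have h4 := lower_strict ⌊lam⌋₊ (Nat.floor_pos.2 h1) (Int.fract lam)
      (lt_of_le_of_ne (Int.fract_nonneg _) (Ne.symm hf)) (Int.fract_lt_one _) P hP.ne_zero
    rw [h3, ← h2, hE] at h4
    exact lt_irrefl _ h4
  · intro n hn
    have hn1 : 1 ≤ n := by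
      simp only [Finset.mem_insert, Finset.mem_singleton] at hn
      omega
    exact (int_iff n hn1).2 (pte_examples n hn)

end Pool.Agent.Results.MP_658dbf_an.PteCriterionExactUpToSix
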