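import Mathlib

set_option autoImplicit false
set_option linter.unusedVariables false
set_option linter.unusedSimpArgs false

namespace Pool.Agent.Results.MP_658dbf_an.SharpBoundExactUpToSix

open Real Finset MeasureTheory intervalIntegral


/-- weight -/
noncomputable def w (s θ : ℝ) : ℝ := (2 - 2 * cos θ) ^ s

noncomputable def J (s : ℝ) (n : ℕ) : ℝ := ∫ θ in (-π)..π, w s θ * cos (n * θ)

lemma base_nonneg (θ : ℝ) : 0 ≤ 2 - 2 * cos θ := by nlinarith [cos_le_one θ]

lemma w_nonneg (s θ : ℝ) : 0 ≤ w s θ := rpow_nonneg (base_nonneg θ) s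

lemma w_cont (s : ℝ) (hs : 0 ≤ s) : Continuous (w s) := by
  unfold w
  apply Continuous.rpow_const
  · fun_prop
  · intro x; right; exact hs

lemma w_deriv (s θ : ℝ) (h : 2 - 2 * cos θ ≠ 0) :
    HasDerivAt (w s) (s * (2 - 2 * cos θ) ^ (s - 1) * (2 * sin θ)) θ := by
  unfold w
  have h1 : HasDerivAt (fun θ : ℝ => 2 - 2 * cos θ) (2 * sin θ) θ := by
    have h0 := ((hasDerivAt_cos θ).const_mul 2).const_sub 2
    exact h0.congr_deriv (by ring)
  have h2 := h1.rpow_const (p := s) (Or.inl h)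
  exact h2.congr_deriv (by ring)

lemma G_deriv (s θ : ℝ) (n : ℕ) (h : 2 - 2 * cos θ ≠ 0) :
    HasDerivAt (fun θ => w s θ * (sin ((n + 1 : ℕ) * θ) - sin (n * θ)))
      (w s θ * (((n : ℝ) + 1 + s) * cos ((n + 1 : ℕ) * θ) - ((n : ℝ) - s) * cos (n * θ))) θ := by
  have h1 := w_deriv s θ h
  have h2 : HasDerivAt (fun θ : ℝ => sin ((n + 1 : ℕ) * θ) - sin (n * θ))
      (((n + 1 : ℕ) : ℝ) * cos ((n + 1 : ℕ) * θ) - (n : ℝ) * cos (n * θ)) θ := by
    have a1 : HasDerivAt (fun θ : ℝ => ((n + 1 : ℕ) : ℝ) * θ) ((n + 1 : ℕ) : ℝ) θ := by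
      simpa using (hasDerivAt_id θ).const_mul ((n + 1 : ℕ) : ℝ)
    have a2 : HasDerivAt (fun θ : ℝ => (n : ℝ) * θ) (n : ℝ) θ := by
      simpa using (hasDerivAt_id θ).const_mul (n : ℝ)
    have h0 := (a1.sin).sub (a2.sin)
    exact h0.congr_deriv (by ring)
  have h3 := h1.mul h2
  refine h3.congr_deriv ?_
  have hb : 0 < 2 - 2 * cos θ := lt_of_le_of_ne (base_nonneg θ) (Ne.symm h)
  have hw : w s θ = (2 - 2 * cos θ) ^ (s - 1) * (2 - 2 * cos θ) := by
    unfold w
    rw [← rpow_add_one h]; congr 1; ring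
  have e1 : sin ((n + 1 : ℕ) * θ) = sin (n * θ) * cos θ + cos (n * θ) * sin θ := by
    rw [← sin_add]; congr 1; push_cast; ring
  have e2 : cos ((n + 1 : ℕ) * θ) = cos (n * θ) * cos θ - sin (n * θ) * sin θ := by
    rw [← cos_add]; congr 1; push_cast; ring
  rw [hw, e1, e2]
  push_cast
  have hs2 : sin θ ^ 2 = 1 - cos θ ^ 2 := by rw [sin_sq]
  have hs3 : sin θ * sin θ = 1 - cos θ * cos θ := by nlinarith
  generalize (2 - 2 * cos θ) ^ (s - 1) = W
  linear_combination (2 * s * W * cos (n * θ)) * hs3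

lemma int_zero (s : ℝ) (hs : 0 ≤ s) (n : ℕ) (a b : ℝ) (hab : a ≤ b)
    (hne : ∀ θ ∈ Set.Ioo a b, 2 - 2 * cos θ ≠ 0) (ha : sin ((n + 1 : ℕ) * a) - sin (n * a) = 0)
    (hb : sin ((n + 1 : ℕ) * b) - sin (n * b) = 0) :
    ∫ θ in a..b, w s θ * (((n : ℝ) + 1 + s) * cos ((n + 1 : ℕ) * θ) - ((n : ℝ) - s) * cos (n * θ)) = 0 := by
  have hw := w_cont s hs
  rw [integral_eq_sub_of_hasDerivAt_of_le hab (f := fun θ => w s θ * (sin ((n + 1 : ℕ) * θ) - sin (n * θ)))]
  · simp only [ha, hb]; ring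
  · apply Continuous.continuousOn; fun_prop
  · intro x hx; exact G_deriv s x n (hne x hx)
  · apply Continuous.intervalIntegrable; fun_prop

lemma cos_ne_one_Ioo {θ : ℝ} (h : (0 < θ ∧ θ < π) ∨ (-π < θ ∧ θ < 0)) : 2 - 2 * cos θ ≠ 0 := by
  have : cos θ ≠ 1 := by
    intro hc
    have h1 := (cos_eq_one_iff_of_lt_of_lt (x := θ) (by rcases h with h|h <;> linarith [pi_pos]) (by rcases h with h|h <;> linarith [pi_pos])).1 hc
    rcases h with h|h <;> linarith
  intro h2; apply this; linarith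

lemma J_int (s : ℝ) (hs : 0 ≤ s) (n : ℕ) (a b : ℝ) : IntervalIntegrable (fun θ => w s θ * cos (n * θ)) volume a b := by
  have hw := w_cont s hs
  apply Continuous.intervalIntegrable; fun_prop

lemma sin_nat_neg_pi (n : ℕ) : sin (n * (-π)) = 0 := by
  rw [mul_neg, sin_neg, sin_nat_mul_pi, neg_zero]

lemma J_rec (s : ℝ) (hs : 0 ≤ s) (n : ℕ) :
    ((n : ℝ) + 1 + s) * J s (n + 1) = ((n : ℝ) - s) * J s n := by
  have h1 := int_zero s hs n (-π) 0 (by linarith [pi_pos])
    (fun θ hθ => cos_ne_one_Ioo (Or.inr hθ)) (by rw [sin_nat_neg_pi, sin_nat_neg_pi]; ring) (by simp)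
  have h2 := int_zero s hs n 0 π (by linarith [pi_pos])
    (fun θ hθ => cos_ne_one_Ioo (Or.inl hθ)) (by simp) (by rw [sin_nat_mul_pi, sin_nat_mul_pi]; ring)
  have hw := w_cont s hs
  have h3 : ∫ θ in (-π)..π, w s θ * (((n : ℝ) + 1 + s) * cos ((n + 1 : ℕ) * θ) - ((n : ℝ) - s) * cos (n * θ)) = 0 := by
    rw [← integral_add_adjacent_intervals (b := 0), h1, h2, add_zero]
    · apply Continuous.intervalIntegrable; fun_prop
    · apply Continuous.intervalIntegrable; fun_prop
  have h4 : ∫ θ in (-π)..π, w s θ * (((n : ℝ) + 1 + s) * cos ((n + 1 : ℕ) * θ) - ((n : ℝ) - s) * cos (n * θ))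
      = ((n : ℝ) + 1 + s) * J s (n + 1) - ((n : ℝ) - s) * J s n := by
    unfold J
    rw [← intervalIntegral.integral_const_mul, ← intervalIntegral.integral_const_mul,
      ← intervalIntegral.integral_sub ((J_int s hs (n+1) _ _).const_mul _) ((J_int s hs n _ _).const_mul _)]
    congr 1; ext θ; ring
  rw [h4] at h3; linarith

lemma J0_nonneg (s : ℝ) : 0 ≤ J s 0 := by
  unfold J
  apply intervalIntegral.integral_nonneg (by linarith [pi_pos])
  intro u _; simp [w_nonneg]

/-- running sums -/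
noncomputable def S (s : ℝ) (n : ℕ) : ℝ := J s 0 + 2 * ∑ k ∈ range n, J s (k + 1)

lemma S_succ (s : ℝ) (n : ℕ) : S s (n + 1) = S s n + 2 * J s (n + 1) := by
  unfold S; rw [sum_range_succ]; ring

lemma J_S (s : ℝ) (hs : 0 ≤ s) (n : ℕ) : ((n : ℝ) + 1 + s) * J s (n + 1) = - s * S s n := by
  induction n with
  | zero => rw [J_rec s hs 0]; simp [S]
  | succ n ih =>
    rw [J_rec s hs (n + 1), S_succ]
    push_cast
    linarith

lemma S_nonneg (s : ℝ) (hs : 0 ≤ s) (hs1 : s ≤ 1) (n : ℕ) : 0 ≤ S s n := by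
  induction n with
  | zero => simp [S]; exact J0_nonneg s
  | succ n ih =>
    have h := J_S s hs n
    rw [S_succ]
    have hp : 0 < (n : ℝ) + 1 + s := by positivity
    have h2 : ((n : ℝ) + 1 + s) * (S s n + 2 * J s (n + 1)) = ((n : ℝ) + 1 - s) * S s n := by linarith
    have h3 : 0 ≤ ((n : ℝ) + 1 - s) * S s n := mul_nonneg (by have : (0:ℝ) ≤ n := Nat.cast_nonneg n; linarith) ih
    rw [← h2] at h3
    exact nonneg_of_mul_nonneg_right h3 hp

lemma J_nonpos (s : ℝ) (hs : 0 ≤ s) (hs1 : s ≤ 1) (n : ℕ) : J s (n + 1) ≤ 0 := by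
  have h := J_S s hs n
  have h2 := S_nonneg s hs hs1 n
  have hp : 0 < (n : ℝ) + 1 + s := by positivity
  have h3 : ((n : ℝ) + 1 + s) * J s (n + 1) ≤ 0 := by rw [h]; nlinarith
  by_contra hc
  push Not at hc
  have := mul_pos hp hc
  linarith

lemma S_le (s : ℝ) (hs : 0 ≤ s) (hs1 : s ≤ 1) (n : ℕ) : S s n ≤ J s 0 := by
  unfold S
  have : ∑ k ∈ range n, J s (k + 1) ≤ 0 := Finset.sum_nonpos (fun k _ => J_nonpos s hs hs1 k)
  linarith

lemma J_lower (s : ℝ) (hs : 0 ≤ s) (hs1 : s ≤ 1) (n : ℕ) : - J s (n + 1) ≤ J s 0 / ((n : ℝ) + 1) := by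
  have h := J_S s hs n
  have h2 := S_le s hs hs1 n
  have h2' := S_nonneg s hs hs1 n
  have h0 := J0_nonneg s
  have hp : 0 < (n : ℝ) + 1 := by positivity
  rw [le_div_iff₀ hp]
  have h3 : J s (n+1) ≤ 0 := J_nonpos s hs hs1 n
  nlinarith




/-- correction outside `[-1,1]` -/
noncomputable def cf (t y : ℝ) : ℝ := -(max (y ^ 2 - 1) 0) / (2 * t)

noncomputable def bp (y : ℝ) : ℝ := max 0 (min 1 (1 + y))

noncomputable def al (y : ℝ) : ℝ := max 0 (1 - |y|)

/-- reduced cost -/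
noncomputable def D (t q y : ℝ) : ℝ := q * (q - y) + cf t ((1 - t) * y + t * q) - cf t y

lemma cf_in (t y : ℝ) (h1 : -1 ≤ y) (h2 : y ≤ 1) : cf t y = 0 := by
  unfold cf; rw [max_eq_right (by nlinarith)]; simp

lemma cf_out (t y : ℝ) (h : 1 ≤ y ∨ y ≤ -1) : cf t y = -((y ^ 2 - 1) / (2 * t)) := by
  unfold cf; rw [max_eq_left (by rcases h with h | h <;> nlinarith)]; ring

lemma cf_nonpos (t y : ℝ) (ht : 0 < t) : cf t y ≤ 0 := by
  unfold cf
  apply div_nonpos_of_nonpos_of_nonneg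
  · have := le_max_right (y ^ 2 - 1) 0; linarith
  · linarith

/-- the key identity -/
lemma key (t q y : ℝ) (ht : 0 < t) :
    q * (q - y) = (1 - t / 2) * (q - y) ^ 2 + (((1 - t) * y + t * q) ^ 2 - y ^ 2) / (2 * t) := by
  field_simp; ring

lemma D_hi (t q y : ℝ) (ht : 0 < t) (ht1 : t ≤ 1) (hq : 1 ≤ q) (hy : 1 ≤ y) :
    D t q y = (1 - t / 2) * (q - y) ^ 2 ∧ 1 ≤ (1 - t) * y + t * q := by
  have h1 : 1 ≤ (1 - t) * y + t * q := by nlinarith
  refine ⟨?_, h1⟩
  unfold D
  rw [cf_out t _ (Or.inl h1), cf_out t y (Or.inl hy), key t q y ht]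
  field_simp; ring

lemma D_in (t q y : ℝ) (ht : 0 < t) (ht1 : t ≤ 1) (hq : 1 ≤ q) (hy : -1 ≤ y) (hy1 : y ≤ 1)
    (h : (1 - t) * y + t * q ≤ 1) : D t q y = q * (q - y) ∧ -1 ≤ (1 - t) * y + t * q := by
  have h1 : -1 ≤ (1 - t) * y + t * q := by nlinarith
  refine ⟨?_, h1⟩
  unfold D
  rw [cf_in t _ h1 h, cf_in t y hy hy1]; ring

lemma D_mid (t q y : ℝ) (ht : 0 < t) (ht1 : t ≤ 1) (hq : q = 1 ∨ 2 ≤ q) (hy : -1 ≤ y) (hy1 : y ≤ 1)
    (h : 1 < (1 - t) * y + t * q) : (2 - t) / 2 * (2 - y) ^ 2 ≤ D t q y ∧ 2 ≤ q := by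
  have hq2 : 2 ≤ q := by
    rcases hq with rfl | hq
    · exfalso; nlinarith
    · exact hq
  refine ⟨?_, hq2⟩
  unfold D
  rw [cf_out t _ (Or.inl h.le), cf_in t y hy hy1, key t q y ht]
  have e : (1 - t / 2) * (q - y) ^ 2 + (((1 - t) * y + t * q) ^ 2 - y ^ 2) / (2 * t)
      + -((((1 - t) * y + t * q) ^ 2 - 1) / (2 * t)) - 0 = (1 - t / 2) * (q - y) ^ 2 + (1 - y ^ 2) / (2 * t) := by
    field_simp; ring
  rw [e]
  have h2 : 0 ≤ (1 - y ^ 2) / (2 * t) := div_nonneg (by nlinarith) (by linarith)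
  have h3 : (2 - y) ^ 2 ≤ (q - y) ^ 2 := by nlinarith
  nlinarith

lemma D_lo (t q y : ℝ) (ht : 0 < t) (ht1 : t ≤ 1) (hq : 1 ≤ q) (hy : y ≤ -1) :
    q * (q - y) ≤ D t q y ∨ (2 - t) / 2 * (q - y) ^ 2 ≤ D t q y := by
  rcases le_total ((1 - t) * y + t * q) (-1) with h | h
  · right
    unfold D
    rw [cf_out t _ (Or.inr h), cf_out t y (Or.inr hy), key t q y ht]
    apply le_of_eq; field_simp; ring
  · rcases le_total ((1 - t) * y + t * q) 1 with h1 | h1
    · left
      unfold D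
      rw [cf_in t _ h h1, cf_out t y (Or.inr hy)]
      have : 0 ≤ (y ^ 2 - 1) / (2 * t) := div_nonneg (by nlinarith) (by linarith)
      linarith
    · right
      unfold D
      rw [cf_out t _ (Or.inl h1), cf_out t y (Or.inr hy), key t q y ht]
      apply le_of_eq; field_simp; ring

lemma bp_nonneg (y : ℝ) : 0 ≤ bp y := le_max_left _ _
lemma bp_le_one (y : ℝ) : bp y ≤ 1 := by unfold bp; apply max_le (by norm_num) (min_le_left _ _)
lemma al_nonneg (y : ℝ) : 0 ≤ al y := le_max_left _ _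
lemma bp_one (y : ℝ) (h : 0 ≤ y) : bp y = 1 := by
  unfold bp; rw [min_eq_left (by linarith)]; simp
lemma bp_mid (y : ℝ) (h : -1 ≤ y) (h1 : y ≤ 0) : bp y = 1 + y := by
  unfold bp; rw [min_eq_right (by linarith), max_eq_right (by linarith)]
lemma bp_zero (y : ℝ) (h : y ≤ -1) : bp y = 0 := by
  unfold bp; rw [min_eq_right (by linarith), max_eq_left (by linarith)]
lemma al_pos (y : ℝ) (h : 0 ≤ y) (h1 : y ≤ 1) : al y = 1 - y := by
  unfold al; rw [abs_of_nonneg h, max_eq_right (by linarith)]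
lemma al_neg (y : ℝ) (h : y ≤ 0) (h1 : -1 ≤ y) : al y = 1 + y := by
  unfold al; rw [abs_of_nonpos h, max_eq_right (by linarith)]; ring
lemma al_out (y : ℝ) (h : 1 ≤ y ∨ y ≤ -1) : al y = 0 := by
  unfold al
  rcases h with h | h
  · rw [abs_of_nonneg (by linarith), max_eq_left (by linarith)]
  · rw [abs_of_nonpos (by linarith), max_eq_left (by linarith)]
lemma bp_mono {x y : ℝ} (h : x ≤ y) : bp x ≤ bp y := by
  unfold bp; apply max_le_max le_rfl (min_le_min le_rfl (by linarith))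

/-- L1 -/
lemma D_ge (t q y : ℝ) (ht : 0 < t) (ht1 : t ≤ 1) (hq : q = 1 ∨ 2 ≤ q) : max (1 - y) 0 ≤ D t q y := by
  have hq1 : 1 ≤ q := by rcases hq with h | h <;> linarith
  rcases le_total 1 y with h | h
  · rw [max_eq_right (by linarith), (D_hi t q y ht ht1 hq1 h).1]
    apply mul_nonneg (by linarith) (sq_nonneg _)
  rw [max_eq_left (by linarith)]
  rcases le_total (-1) y with h' | h'
  · rcases le_or_gt ((1 - t) * y + t * q) 1 with h2 | h2
    · rw [(D_in t q y ht ht1 hq1 h' h h2).1]; nlinarith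
    · have := (D_mid t q y ht ht1 hq h' h h2).1
      nlinarith [sq_nonneg y]
  · rcases D_lo t q y ht ht1 hq1 h' with h2 | h2
    · nlinarith
    · have : 0 ≤ (q - y) * (q - y - 2) := mul_nonneg (by linarith) (by linarith)
      nlinarith

lemma D_nonneg (t q y : ℝ) (ht : 0 < t) (ht1 : t ≤ 1) (hq : q = 1 ∨ 2 ≤ q) : 0 ≤ D t q y :=
  le_trans (le_max_right _ _) (D_ge t q y ht ht1 hq)

/-- monotone part: beta plus increases when a positive step is made -/
lemma bp_step (t q y : ℝ) (ht : 0 < t) (ht1 : t ≤ 1) (hq : 1 ≤ q) : bp y ≤ bp ((1 - t) * y + t * q) := by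
  rcases le_total 1 y with h | h
  · rw [bp_one y (by linarith), bp_one _ (by nlinarith)]
  · apply bp_mono; nlinarith

/-- L3 -/
lemma L3 (t q y : ℝ) (ht : 0 < t) (ht1 : t ≤ 1) (hq : q = 1 ∨ 2 ≤ q) :
    (2 - t) * (bp (-y) - bp (-((1 - t) * y + t * q))) ≤ D t q y := by
  have hq1 : 1 ≤ q := by rcases hq with h | h <;> linarith
  have hD := D_nonneg t q y ht ht1 hq
  have hb := bp_nonneg (-((1 - t) * y + t * q))
  have hb1 := bp_le_one (-y)
  rcases le_total 1 y with h | h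
  · rw [bp_zero (-y) (by linarith)]
    have : 0 ≤ (2 - t) * bp (-((1 - t) * y + t * q)) := mul_nonneg (by linarith) hb
    linarith
  rcases le_total (-1) y with h' | h'
  · rcases le_or_gt ((1 - t) * y + t * q) 1 with h2 | h2
    · rw [(D_in t q y ht ht1 hq1 h' h h2).1]
      rcases le_total 0 y with h0 | h0
      · have h3 : 0 ≤ (1 - t) * y + t * q := by nlinarith
        rw [bp_mid (-y) (by linarith) (by linarith), bp_mid _ (by linarith) (by linarith)]
        have : (2 - t) * (1 + -y - (1 + -((1 - t) * y + t * q))) = ((2 - t) * t) * (q - y) := by ring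
        rw [this]
        have : (2 - t) * t ≤ 1 := by nlinarith [sq_nonneg (1 - t)]
        have : 0 ≤ q - y := by linarith
        nlinarith
      · rw [bp_one (-y) (by linarith)]
        rcases le_total 0 ((1 - t) * y + t * q) with h3 | h3
        · rw [bp_mid _ (by linarith) (by linarith)]
          have h4 : (2 - t) * (1 - (1 + -((1 - t) * y + t * q))) ≤ (2 - t) * t * q := by
            have : (1 - t) * y ≤ 0 := by nlinarith
            nlinarith
          have : (2 - t) * t ≤ 1 := by nlinarith [sq_nonneg (1 - t)]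
          nlinarith
        · rw [bp_one _ (by linarith)]; nlinarith
    · have := (D_mid t q y ht ht1 hq h' h h2).1
      rcases le_total 0 y with h0 | h0
      · rw [bp_mid (-y) (by linarith) (by linarith)]
        nlinarith [sq_nonneg y]
      · nlinarith [sq_nonneg y]
  · rcases D_lo t q y ht ht1 hq1 h' with h2 | h2
    · nlinarith
    · have : (4:ℝ) ≤ (q - y) ^ 2 := by nlinarith
      nlinarith

/-- L4 -/
lemma L4 (t q y : ℝ) (ht : 0 < t) (ht1 : t ≤ 1) (hq : q = 1 ∨ 2 ≤ q) :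
    (2 - t) * bp (-y) - al ((1 - t) * y + t * q) ≤ D t q y := by
  have hq1 : 1 ≤ q := by rcases hq with h | h <;> linarith
  have hD := D_nonneg t q y ht ht1 hq
  have ha := al_nonneg ((1 - t) * y + t * q)
  have hb1 := bp_le_one (-y)
  rcases le_total 1 y with h | h
  · rw [bp_zero (-y) (by linarith)]; linarith
  rcases le_total (-1) y with h' | h'
  · rcases le_or_gt ((1 - t) * y + t * q) 1 with h2 | h2
    · have hin := D_in t q y ht ht1 hq1 h' h h2
      rw [hin.1]
      rcases le_total 0 y with h0 | h0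
      · have h3 : 0 ≤ (1 - t) * y + t * q := by nlinarith
        rw [bp_mid (-y) (by linarith) (by linarith), al_pos _ h3 h2]
        have e1 : (1 - t) * (1 - y) ≤ (q - t) * (q - y) := by
          apply mul_le_mul <;> linarith
        nlinarith
      · rw [bp_one (-y) (by linarith)]
        rcases le_total 0 ((1 - t) * y + t * q) with h3 | h3
        · rw [al_pos _ h3 h2]
          have : (1 - t) * y ≤ 0 := by nlinarith
          have : q ≤ q * (q - y) := by nlinarith
          have : t * q + (1 - t) ≤ q := by nlinarith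
          nlinarith
        · rw [al_neg _ h3 hin.2]
          have h5 : 0 ≤ t * q := by nlinarith
          have h6 : (1 - t) * (-y) ≤ - y := by nlinarith
          have h7 : 1 - y ≤ q * (q - y) := by nlinarith
          nlinarith
    · have := (D_mid t q y ht ht1 hq h' h h2).1
      rcases le_total 0 y with h0 | h0
      · rw [bp_mid (-y) (by linarith) (by linarith)]
        nlinarith [sq_nonneg y]
      · nlinarith [sq_nonneg y]
  · have h1 := D_ge t q y ht ht1 hq
    rw [max_eq_left (by linarith)] at h1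
    nlinarith

/-- L5 -/
lemma L5 (t q y : ℝ) (ht : 0 < t) (ht1 : t ≤ 1) (hq : 2 ≤ q) :
    (2 - t) * (1 - bp ((1 - t) * y + t * q) + bp (-y)) ≤ D t q y := by
  have hq1 : 1 ≤ q := by linarith
  have hD := D_nonneg t q y ht ht1 (Or.inr hq)
  have hb := bp_nonneg ((1 - t) * y + t * q)
  have hb1 := bp_le_one (-y)
  rcases le_total 1 y with h | h
  · rw [bp_zero (-y) (by linarith), bp_one _ (by nlinarith)]
    linarith
  rcases le_total (-1) y with h' | h'
  · rcases le_or_gt ((1 - t) * y + t * q) 1 with h2 | h2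
    · rw [(D_in t q y ht ht1 hq1 h' h h2).1]
      rcases le_total 0 y with h0 | h0
      · have h3 : 0 ≤ (1 - t) * y + t * q := by nlinarith
        rw [bp_mid (-y) (by linarith) (by linarith), bp_one _ h3]
        nlinarith
      · have : (2 - t) * (1 - bp ((1 - t) * y + t * q) + bp (-y)) ≤ 2 * 2 := by
          apply mul_le_mul <;> first | linarith | (have := bp_le_one ((1 - t) * y + t * q); have := bp_nonneg (-y); linarith)
        nlinarith
    · have := (D_mid t q y ht ht1 (Or.inr hq) h' h h2).1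
      rw [bp_one ((1 - t) * y + t * q) (by linarith)]
      rcases le_total 0 y with h0 | h0
      · rw [bp_mid (-y) (by linarith) (by linarith)]
        nlinarith [sq_nonneg y]
      · nlinarith [sq_nonneg y]
  · have hx : (2 - t) * (1 - bp ((1 - t) * y + t * q) + bp (-y)) ≤ (2 - t) * 2 := by
      apply mul_le_mul_of_nonneg_left _ (by linarith)
      linarith
    rcases D_lo t q y ht ht1 hq1 h' with h2 | h2
    · nlinarith
    · have : (9:ℝ) ≤ (q - y) ^ 2 := by nlinarith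
      nlinarith

/-- L6 -/
lemma L6 (t q y : ℝ) (ht : 0 < t) (ht1 : t ≤ 1) (hq : q = 1 ∨ 2 ≤ q) :
    (2 - t) * (1 - bp ((1 - t) * y + t * q)) + al y ≤ D t q y := by
  have hq1 : 1 ≤ q := by rcases hq with h | h <;> linarith
  have h1 := D_ge t q y ht ht1 hq
  rcases le_total 0 y with h0 | h0
  · rw [bp_one ((1 - t) * y + t * q) (by nlinarith)]
    have : al y ≤ max (1 - y) 0 := by
      unfold al; rw [abs_of_nonneg h0, max_comm]
    linarith
  · rw [max_eq_left (by linarith)] at h1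
    have hb := bp_nonneg ((1 - t) * y + t * q)
    rcases le_total (-1) y with h' | h'
    · rw [al_neg y h0 h']
      have h3 : 1 - bp ((1 - t) * y + t * q) ≤ (1 - t) * (-y) := by
        rcases le_total 0 ((1 - t) * y + t * q) with h4 | h4
        · rw [bp_one _ h4]; nlinarith
        · rw [bp_mid _ (by nlinarith) h4]; nlinarith
      have h4 : (2 - t) * (1 - bp ((1 - t) * y + t * q)) ≤ (2 - t) * ((1 - t) * (-y)) :=
        mul_le_mul_of_nonneg_left h3 (by linarith)
      have h5 : (2 - t) * ((1 - t) * (-y)) ≤ 2 * (-y) := by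
        have : (2 - t) * (1 - t) ≤ 2 := by nlinarith
        nlinarith
      linarith
    · rw [al_out y (Or.inr h')]
      nlinarith



noncomputable def PA (t : ℝ) : ℕ → ℝ → ℝ
  | 0, _ => 0
  | (i + 1), y => 1 + i * (2 - t) + al y

noncomputable def PB (t : ℝ) : ℕ → ℝ → ℝ
  | 0, b => b
  | (i + 1), b => 1 + i * (2 - t) + (2 - t) * b

lemma PB_succ (t : ℝ) (ht1 : t ≤ 1) (i : ℕ) (b : ℝ) (hb : 0 ≤ b) (hb1 : b ≤ 1) : PB t i b ≤ PB t (i + 1) b := by
  cases i with
  | zero => simp only [PB]; push_cast; nlinarith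
  | succ k => simp only [PB]; push_cast; nlinarith

lemma PB_le (t : ℝ) (ht1 : t ≤ 1) (i j : ℕ) (h : i ≤ j) (b : ℝ) (hb : 0 ≤ b) (hb1 : b ≤ 1) : PB t i b ≤ PB t j b := by
  induction j, h using Nat.le_induction with
  | base => exact le_rfl
  | succ n _ ih => exact ih.trans (PB_succ t ht1 n b hb hb1)

lemma PB_mono (t : ℝ) (ht1 : t ≤ 1) (i : ℕ) (b c : ℝ) (h : b ≤ c) : PB t i b ≤ PB t i c := by
  cases i with
  | zero => exact h
  | succ k => simp only [PB]; nlinarith

lemma PA_le (t : ℝ) (ht1 : t ≤ 1) (i j : ℕ) (h : i ≤ j) (y : ℝ) : PA t i y ≤ PA t j y := by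
  have ha := al_nonneg y
  cases i with
  | zero =>
    cases j with
    | zero => exact le_rfl
    | succ k => 
      have : (0:ℝ) ≤ k := Nat.cast_nonneg k
      simp only [PA]; nlinarith
  | succ k =>
    cases j with
    | zero => omega
    | succ l =>
      have : (k:ℝ) ≤ l := by exact_mod_cast (by omega : k ≤ l)
      simp only [PA]; nlinarith

/-- transitions for a positive step `q` -/
lemma SA (t q y : ℝ) (ht : 0 < t) (ht1 : t ≤ 1) (hq : q = 1 ∨ 2 ≤ q) (i i' : ℕ) (h : i ≤ i' + 1) :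
    PA t i y ≤ D t q y + PB t i' (bp ((1 - t) * y + t * q)) := by
  have hD := D_nonneg t q y ht ht1 hq
  have hb := bp_nonneg ((1 - t) * y + t * q)
  have hb1 := bp_le_one ((1 - t) * y + t * q)
  have h6 := L6 t q y ht ht1 hq
  cases i with
  | zero =>
    have := PB_le t ht1 0 i' (Nat.zero_le _) _ hb hb1
    simp only [PB, PA] at *
    linarith
  | succ k =>
    have := PB_le t ht1 k i' (by omega) _ hb hb1
    refine le_trans ?_ (add_le_add_right this _)
    cases k with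
    | zero => simp only [PA, PB]; push_cast; nlinarith
    | succ l => simp only [PA, PB]; push_cast; nlinarith

lemma SBp (t q y : ℝ) (ht : 0 < t) (ht1 : t ≤ 1) (hq : q = 1 ∨ 2 ≤ q) (i i' : ℕ) (h : i ≤ i') :
    PB t i (bp y) ≤ D t q y + PB t i' (bp ((1 - t) * y + t * q)) := by
  have hD := D_nonneg t q y ht ht1 hq
  have hq1 : 1 ≤ q := by rcases hq with h | h <;> linarith
  have h1 := PB_mono t ht1 i _ _ (bp_step t q y ht ht1 hq1)
  have h2 := PB_le t ht1 i i' h _ (bp_nonneg ((1 - t) * y + t * q)) (bp_le_one _)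
  linarith

lemma SBm (t q y : ℝ) (ht : 0 < t) (ht1 : t ≤ 1) (hq : q = 1 ∨ 2 ≤ q) (i i' : ℕ) (h : i ≤ i') :
    PB t i (bp (-y)) ≤ D t q y + PB t i' (bp (-((1 - t) * y + t * q))) := by
  have hD := D_nonneg t q y ht ht1 hq
  have h3 := L3 t q y ht ht1 hq
  have h2 := PB_le t ht1 i i' h _ (bp_nonneg (-((1 - t) * y + t * q))) (bp_le_one _)
  refine le_trans ?_ (add_le_add_right h2 _)
  cases i with
  | zero =>
    simp only [PB]
    rcases le_total (bp (-y)) (bp (-((1 - t) * y + t * q))) with h4 | h4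
    · linarith
    · nlinarith
  | succ k => simp only [PB]; linarith

lemma SBA (t q y : ℝ) (ht : 0 < t) (ht1 : t ≤ 1) (hq : q = 1 ∨ 2 ≤ q) (i i' : ℕ) (h : i ≤ i') :
    PB t i (bp (-y)) ≤ D t q y + PA t i' ((1 - t) * y + t * q) := by
  have h1 := D_ge t q y ht ht1 hq
  have h4 := L4 t q y ht ht1 hq
  have h2 := PA_le t ht1 i i' h ((1 - t) * y + t * q)
  refine le_trans ?_ (add_le_add_right h2 _)
  cases i with
  | zero =>
    simp only [PB, PA]
    have : bp (-y) ≤ max (1 - y) 0 := by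
      unfold bp; apply max_le (le_max_right _ _)
      exact le_trans (min_le_right _ _) (by rw [← sub_eq_add_neg]; exact le_max_left _ _)
    linarith
  | succ k => simp only [PB, PA]; linarith

lemma SBX (t q y : ℝ) (ht : 0 < t) (ht1 : t ≤ 1) (hq : 2 ≤ q) (i i' : ℕ) (h : i ≤ i' + 1) :
    PB t i (bp (-y)) ≤ D t q y + PB t i' (bp ((1 - t) * y + t * q)) := by
  have h1 := D_ge t q y ht ht1 (Or.inr hq)
  have h5 := L5 t q y ht ht1 hq
  have hb := bp_nonneg ((1 - t) * y + t * q)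
  have hb1 := bp_le_one ((1 - t) * y + t * q)
  cases i with
  | zero =>
    have h2 := PB_le t ht1 0 i' (Nat.zero_le _) _ hb hb1
    simp only [PB] at *
    have : bp (-y) ≤ max (1 - y) 0 := by
      unfold bp; apply max_le (le_max_right _ _)
      exact le_trans (min_le_right _ _) (by rw [← sub_eq_add_neg]; exact le_max_left _ _)
    linarith
  | succ k =>
    have h2 := PB_le t ht1 k i' (by omega) _ hb hb1
    refine le_trans ?_ (add_le_add_right h2 _)
    cases k with
    | zero => simp only [PB]; push_cast; nlinarith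
    | succ l => simp only [PB]; push_cast; nlinarith

/-- the potential; `i` is the number of sign blocks of `N` still to be started -/
noncomputable def Phi (t : ℝ) (i : ℕ) (N : ℤ) (y : ℝ) : ℝ :=
  (if N = 0 then PA t i y else if 0 < N then PB t i (bp y) else PB t i (bp (-y))) + cf t y

lemma al_even (y : ℝ) : al (-y) = al y := by unfold al; rw [abs_neg]
lemma cf_even (t y : ℝ) : cf t (-y) = cf t y := by unfold cf; rw [neg_sq]
lemma PA_even (t : ℝ) (i : ℕ) (y : ℝ) : PA t i (-y) = PA t i y := by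
  cases i with
  | zero => rfl
  | succ k => simp only [PA, al_even]

lemma Phi_neg (t : ℝ) (i : ℕ) (N : ℤ) (y : ℝ) : Phi t i (-N) (-y) = Phi t i N y := by
  unfold Phi
  rw [cf_even, PA_even]
  congr 1
  rcases lt_trichotomy N 0 with h | h | h
  · rw [if_neg (by omega), if_pos (by omega), if_neg (by omega), if_neg (by omega)]
  · subst h; simp
  · rw [if_neg (by omega), if_neg (by omega), if_neg (by omega), if_pos h, neg_neg]

lemma step_pos (t y : ℝ) (ht : 0 < t) (ht1 : t ≤ 1) (i i' : ℕ) (N Q : ℤ) (hQ : 0 < Q)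
    (h : i ≤ i' ∨ (i ≤ i' + 1 ∧ N + Q ≠ 0 ∧ N * (N + Q) ≤ 0)) :
    Phi t i N y ≤ (Q : ℝ) * (Q - y) + Phi t i' (N + Q) ((1 - t) * y + t * Q) := by
  have hq : (Q : ℝ) = 1 ∨ (2 : ℝ) ≤ Q := by
    rcases eq_or_lt_of_le (by omega : (1 : ℤ) ≤ Q) with h | h
    · left; rw [← h]; norm_num
    · right; exact_mod_cast h
  have hi : i ≤ i' + 1 := by omega
  unfold Phi
  have hD : ∀ x z : ℝ, x ≤ D t Q y + z → x + cf t y ≤ (Q : ℝ) * (Q - y) + (z + cf t ((1 - t) * y + t * Q)) := by
    intro x z hx; unfold D at hx; linarith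
  apply hD
  rcases lt_trichotomy N 0 with hN | hN | hN
  · rw [if_neg (by omega), if_neg (by omega)]
    rcases lt_trichotomy (N + Q) 0 with h1 | h1 | h1
    · rw [if_neg (by omega), if_neg (by omega)]
      apply SBm t Q y ht ht1 hq
      rcases h with h | ⟨_, _, h⟩
      · exact h
      · exfalso; nlinarith
    · rw [if_pos h1]
      apply SBA t Q y ht ht1 hq
      rcases h with h | ⟨_, h, _⟩
      · exact h
      · exact absurd h1 h
    · rw [if_neg (by omega), if_pos h1]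
      apply SBX t Q y ht ht1 _ i i' hi
      exact_mod_cast (by omega : (2 : ℤ) ≤ Q)
  · subst hN
    rw [if_pos rfl, if_neg (by omega), if_pos (by omega)]
    exact SA t Q y ht ht1 hq i i' hi
  · rw [if_neg (by omega), if_pos hN, if_neg (by omega), if_pos (by omega)]
    apply SBp t Q y ht ht1 hq
    rcases h with h | ⟨_, _, h⟩
    · exact h
    · exfalso; nlinarith

lemma step_zero (t y : ℝ) (ht : 0 < t) (ht1 : t ≤ 1) (i i' : ℕ) (N : ℤ) (h : i ≤ i') :
    Phi t i N y ≤ Phi t i' N ((1 - t) * y) := by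
  unfold Phi
  have hc : cf t y ≤ cf t ((1 - t) * y) := by
    unfold cf
    apply div_le_div_of_nonneg_right _ (by linarith)
    apply neg_le_neg
    apply max_le_max _ le_rfl
    have : ((1 - t) * y) ^ 2 ≤ y ^ 2 := by
      rw [mul_pow]
      have : (1 - t) ^ 2 ≤ 1 := by nlinarith
      nlinarith [sq_nonneg y]
    linarith
  have ha : al y ≤ al ((1 - t) * y) := by
    unfold al
    apply max_le_max le_rfl
    rw [abs_mul, abs_of_nonneg (by linarith : (0:ℝ) ≤ 1 - t)]
    nlinarith [abs_nonneg y]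
  have hb : ∀ z : ℝ, bp z ≤ bp ((1 - t) * z) := by
    intro z
    rcases le_total 0 z with h0 | h0
    · rw [bp_one z h0, bp_one _ (mul_nonneg (by linarith) h0)]
    · apply bp_mono; nlinarith
  apply add_le_add _ hc
  split_ifs
  · refine le_trans ?_ (PA_le t ht1 i i' h _)
    cases i with
    | zero => exact le_rfl
    | succ k => simp only [PA]; linarith
  · exact le_trans (PB_mono t ht1 i _ _ (hb y)) (PB_le t ht1 i i' h _ (bp_nonneg _) (bp_le_one _))
  · have := hb (-y)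
    rw [mul_neg] at this
    exact le_trans (PB_mono t ht1 i _ _ this) (PB_le t ht1 i i' h _ (bp_nonneg _) (bp_le_one _))

lemma step_all (t y : ℝ) (ht : 0 < t) (ht1 : t ≤ 1) (i i' : ℕ) (N Q : ℤ)
    (h : i ≤ i' ∨ (i ≤ i' + 1 ∧ N + Q ≠ 0 ∧ N * (N + Q) ≤ 0)) :
    Phi t i N y ≤ (Q : ℝ) * (Q - y) + Phi t i' (N + Q) ((1 - t) * y + t * Q) := by
  rcases lt_trichotomy Q 0 with hQ | hQ | hQ
  · have h1 := step_pos t (-y) ht ht1 i i' (-N) (-Q) (by omega) (by
      rcases h with h | ⟨h1, h2, h3⟩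
      · exact Or.inl h
      · right; refine ⟨h1, by omega, by nlinarith⟩)
    rw [Phi_neg, ← neg_add, show (1 - t) * -y + t * ((-Q : ℤ) : ℝ) = -((1 - t) * y + t * Q) by push_cast; ring, Phi_neg] at h1
    push_cast at h1
    linarith
  · subst hQ
    have hi : i ≤ i' := by
      rcases h with h | ⟨h1, h2, h3⟩
      · exact h
      · exfalso
        rw [add_zero] at h2 h3
        have : 0 < N * N := mul_self_pos.2 h2
        omega
    have := step_zero t y ht ht1 i i' N hi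
    simpa using this
  · exact step_pos t y ht ht1 i i' N Q hQ h



/-- exponential moving average -/
noncomputable def ema (t : ℝ) (a : ℕ → ℤ) : ℕ → ℝ
  | 0 => 0
  | n + 1 => (1 - t) * ema t a n + t * a n

/-- one step of the sign block counter: current sign and number of sign blocks -/
def stp (p : ℤ × ℕ) (x : ℤ) : ℤ × ℕ :=
  if x = 0 then p else if 0 < x then (if p.1 = 1 then p else (1, p.2 + 1))
  else (if p.1 = -1 then p else (-1, p.2 + 1))

def blk (c : ℕ → ℤ) : ℕ → ℤ × ℕ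
  | 0 => (0, 0)
  | n + 1 => stp (blk c n) (c n)

/-- potential telescoping: `a` steps, `c n` = running sum of `a` up to and including `n` -/
lemma tele (t : ℝ) (ht : 0 < t) (ht1 : t ≤ 1) (m : ℕ) (a c : ℕ → ℤ)
    (h0 : c 0 = a 0) (hc : ∀ n, c (n + 1) = c n + a (n + 1)) (n : ℕ) :
    (∀ k, c n = k → (k = 0 ∨ (0 < k ∧ (blk c (n + 1)).1 = 1) ∨ (k < 0 ∧ (blk c (n + 1)).1 = -1))) ∧
    Phi t m 0 0 ≤ ∑ j ∈ range (n + 1), (a j : ℝ) * (a j - ema t a j)
      + Phi t (m - (blk c (n + 1)).2) (c n) (ema t a (n + 1)) := by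
  induction n with
  | zero =>
    constructor
    · intro k hk
      simp only [blk, stp]
      rw [hk]
      rcases lt_trichotomy k 0 with h | h | h
      · right; right; simp [h, h.ne, not_lt.2 h.le]
      · left; exact h
      · right; left; simp [h, h.ne']
    · have := step_all t 0 ht ht1 m (m - (blk c 1).2) 0 (a 0) (by
        simp only [blk, stp]
        split_ifs <;> simp <;> omega)
      simpa [ema, h0] using this
  | succ n ih =>
    obtain ⟨ih1, ih2⟩ := ih
    have ih1' := ih1 (c n) rfl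
    constructor
    · intro k hk
      rw [show blk c (n + 1 + 1) = stp (blk c (n + 1)) (c (n + 1)) from rfl, hk]
      unfold stp
      rcases lt_trichotomy k 0 with h | h | h
      · right; right
        refine ⟨h, ?_⟩
        rw [if_neg h.ne, if_neg (not_lt.2 h.le)]
        split_ifs with h1
        · exact h1
        · rfl
      · left; exact h
      · right; left
        refine ⟨h, ?_⟩
        rw [if_neg h.ne', if_pos h]
        split_ifs with h1
        · exact h1
        · rfl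
    · rw [sum_range_succ]
      have hs := step_all t (ema t a (n + 1)) ht ht1 (m - (blk c (n + 1)).2) (m - (blk c (n + 1 + 1)).2)
        (c n) (a (n + 1)) (by
          rw [← hc n, show blk c (n + 1 + 1) = stp (blk c (n + 1)) (c (n + 1)) from rfl]
          unfold stp
          generalize hp : blk c (n + 1) = p at *
          generalize c (n + 1) = x at *
          generalize c n = y at *
          split_ifs with h1 h2 h3 h4
          · left; exact le_rfl
          · left; exact le_rfl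
          · right
            refine ⟨by simp only; omega, h1, ?_⟩
            rcases ih1' with h | ⟨_, h⟩ | ⟨h, _⟩
            · rw [h]; simp
            · exact absurd h h3
            · exact (mul_neg_of_neg_of_pos h h2).le
          · left; exact le_rfl
          · right
            refine ⟨by simp only; omega, h1, ?_⟩
            rcases ih1' with h | ⟨h, _⟩ | ⟨_, h⟩
            · rw [h]; simp
            · exact (mul_neg_of_pos_of_neg h (by omega)).le
            · exact absurd h h4)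
      rw [← hc n] at hs
      rw [show ema t a (n + 1 + 1) = (1 - t) * ema t a (n + 1) + t * a (n + 1) from rfl]
      linarith

/-- the path inequality -/
lemma path_ineq (t : ℝ) (ht : 0 < t) (ht1 : t ≤ 1) (m : ℕ) (hm : 1 ≤ m) (a c : ℕ → ℤ)
    (h0 : c 0 = a 0) (hc : ∀ n, c (n + 1) = c n + a (n + 1)) (n : ℕ) (hn : c n = 0)
    (hb : m ≤ (blk c (n + 1)).2) :
    2 * m - (m - 1) * t ≤ ∑ j ∈ range (n + 1), (a j : ℝ) * (a j - ema t a j) := by
  have h := (tele t ht ht1 m a c h0 hc n).2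
  rw [Nat.sub_eq_zero_of_le hb, hn] at h
  obtain ⟨k, rfl⟩ : ∃ k, m = k + 1 := ⟨m - 1, by omega⟩
  have h1 : Phi t (k + 1) 0 0 = 2 + k * (2 - t) := by
    unfold Phi
    rw [if_pos rfl, cf_in t 0 (by norm_num) (by norm_num)]
    simp only [PA]
    rw [al_pos 0 le_rfl (by norm_num)]; ring
  have h2 : Phi t 0 0 (ema t a (n + 1)) ≤ 0 := by
    unfold Phi
    rw [if_pos rfl]
    simp only [PA]
    have := cf_nonpos t (ema t a (n + 1)) ht
    linarith
  rw [h1] at h
  push_cast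
  linarith

/-- block growth -/
lemma blk_grow (M K : ℕ → ℤ) (h0 : K 0 = M 0) (hK : ∀ n, K (n + 1) = M (n + 1) - M n) (n : ℕ) :
    ((blk M (n + 1)).2 = 0 ∧ (blk K (n + 1)).2 = 0 ∧ (blk M (n + 1)).1 = 0 ∧ (blk K (n + 1)).1 = 0 ∧ M n = 0) ∨
    (((blk M (n + 1)).1 = 1 ∨ (blk M (n + 1)).1 = -1) ∧ 1 ≤ (blk M (n + 1)).2 ∧ 
      ((((blk K (n + 1)).2 + (blk M (n + 1)).2) % 2 = 0 ∧ (blk K (n + 1)).1 = (blk M (n + 1)).1) ∨
       (((blk K (n + 1)).2 + (blk M (n + 1)).2) % 2 = 1 ∧ (blk K (n + 1)).1 = - (blk M (n + 1)).1)) ∧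
      (blk M (n + 1)).2 ≤ (blk K (n + 1)).2 ∧
      ((blk M (n + 1)).1 = 1 → 0 ≤ M n) ∧ ((blk M (n + 1)).1 = -1 → M n ≤ 0) ∧
      ((blk M (n + 1)).2 = (blk K (n + 1)).2 → M n ≠ 0)) := by
  induction n with
  | zero =>
    simp only [blk, stp, h0]
    rcases lt_trichotomy (M 0) 0 with h | h | h
    · right; simp [h, h.ne, not_lt.2 h.le]; omega
    · left; simp [h]
    · right; simp [h, h.ne']; omega
  | succ n ih =>
    rw [show blk M (n + 1 + 1) = stp (blk M (n + 1)) (M (n + 1)) from rfl,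
      show blk K (n + 1 + 1) = stp (blk K (n + 1)) (M (n + 1) - M n) by rw [← hK n]; rfl]
    generalize blk M (n + 1) = p at *
    generalize blk K (n + 1) = q at *
    generalize M (n + 1) = x at *
    generalize M n = y at *
    obtain ⟨σ, b⟩ := p
    obtain ⟨τ, d⟩ := q
    simp only at ih
    unfold stp
    simp only
    rcases ih with ⟨rfl, rfl, rfl, rfl, rfl⟩ | ⟨h1, h2, h3, h4, h5, h6, h7⟩
    · rcases lt_trichotomy x 0 with h | h | h
      · right; simp [h, h.ne, not_lt.2 h.le]; omega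
      · left; simp [h]
      · right; simp [h, h.ne']; omega
    · right
      rcases h1 with rfl | rfl
      · have h5' := h5 rfl
        rcases h3 with ⟨h3, rfl⟩ | ⟨h3, rfl⟩
        · split_ifs <;> simp_all <;> omega
        · split_ifs <;> simp_all <;> omega
      · have h6' := h6 rfl
        rcases h3 with ⟨h3, rfl⟩ | ⟨h3, rfl⟩
        · split_ifs <;> simp_all <;> omega
        · split_ifs <;> simp_all <;> omega


open Polynomial

/-- distance -/
def dst (j k : ℕ) : ℕ := ((j : ℤ) - (k : ℤ)).natAbs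

lemma dst_comm (j k : ℕ) : dst j k = dst k j := by unfold dst; omega

/-- kernel -/
noncomputable def ker (t : ℝ) : ℕ → ℝ
  | 0 => 1
  | n + 1 => -(t / 2) * (1 - t) ^ n

/-- quadratic form of a Toeplitz kernel -/
noncomputable def F (f : ℕ → ℝ) (N : ℕ) (a : ℕ → ℤ) : ℝ :=
  ∑ j ∈ range N, ∑ k ∈ range N, (a j : ℝ) * (a k : ℝ) * f (dst j k)

lemma F_succ (f : ℕ → ℝ) (N : ℕ) (a : ℕ → ℤ) :
    F f (N + 1) a = F f N a + 2 * (a N : ℝ) * ∑ k ∈ range N, (a k : ℝ) * f (N - k) + (a N : ℝ) ^ 2 * f 0 := by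
  unfold F
  rw [sum_range_succ]
  have h1 : ∀ j ∈ range N, ∑ k ∈ range (N + 1), (a j : ℝ) * (a k : ℝ) * f (dst j k)
      = ∑ k ∈ range N, (a j : ℝ) * (a k : ℝ) * f (dst j k) + (a N : ℝ) * ((a j : ℝ) * f (N - j)) := by
    intro j hj
    rw [sum_range_succ, show dst j N = N - j by unfold dst; have := mem_range.1 hj; omega]
    ring
  rw [sum_congr rfl h1, sum_add_distrib, ← mul_sum, sum_range_succ]
  have h2 : ∑ k ∈ range N, (a N : ℝ) * (a k : ℝ) * f (dst N k) = (a N : ℝ) * ∑ k ∈ range N, (a k : ℝ) * f (N - k) := by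
    rw [mul_sum]
    apply sum_congr rfl
    intro k hk
    rw [show dst N k = N - k by unfold dst; have := mem_range.1 hk; omega]
    ring
  rw [h2, show dst N N = 0 by unfold dst; simp]
  ring

lemma ema_eq (t : ℝ) (a : ℕ → ℤ) (n : ℕ) :
    ema t a n = ∑ k ∈ range n, t * (1 - t) ^ (n - 1 - k) * (a k : ℝ) := by
  induction n with
  | zero => simp [ema]
  | succ n ih =>
    rw [sum_range_succ]
    unfold ema
    rw [ih, mul_sum]
    congr 1
    · apply sum_congr rfl
      intro k hk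
      have hk' := mem_range.1 hk
      rw [show n + 1 - 1 - k = (n - 1 - k) + 1 by omega, pow_succ]; ring
    · simp

lemma F_ker (t : ℝ) (a : ℕ → ℤ) (n : ℕ) :
    F (ker t) n a = ∑ j ∈ range n, (a j : ℝ) * (a j - ema t a j) := by
  induction n with
  | zero => simp [F]
  | succ n ih =>
    rw [F_succ, sum_range_succ, ih, ema_eq]
    have h1 : ∑ k ∈ range n, (a k : ℝ) * ker t (n - k) = - (1 / 2) * ∑ k ∈ range n, t * (1 - t) ^ (n - 1 - k) * (a k : ℝ) := by
      rw [mul_sum]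
      apply sum_congr rfl
      intro k hk
      have hk' := mem_range.1 hk
      rw [show n - k = (n - 1 - k) + 1 by omega]
      simp only [ker]; ring
    rw [h1]
    simp only [ker]; ring

lemma blk_inv (c : ℕ → ℤ) (n : ℕ) : (blk c n).1 ≠ 0 → 1 ≤ (blk c n).2 := by
  induction n with
  | zero => intro h; simp [blk] at h
  | succ n ih =>
    intro h
    rw [show blk c (n + 1) = stp (blk c n) (c n) from rfl] at h ⊢
    unfold stp at *
    generalize blk c n = p at *
    split_ifs at * with h1 h2 h3 h4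
    · exact ih h
    · exact ih h
    · simp
    · exact ih h
    · simp

lemma blk_mono (c : ℕ → ℤ) (n : ℕ) : (blk c n).2 ≤ (blk c (n + 1)).2 := by
  rw [show blk c (n + 1) = stp (blk c n) (c n) from rfl]
  unfold stp
  split_ifs <;> simp

lemma blk_mono' (c : ℕ → ℤ) (n k : ℕ) (h : n ≤ k) : (blk c n).2 ≤ (blk c k).2 := by
  induction k, h using Nat.le_induction with
  | base => exact le_rfl
  | succ k _ ih => exact ih.trans (blk_mono c k)

lemma blk_pos (c : ℕ → ℤ) (j : ℕ) (h : c j ≠ 0) : 1 ≤ (blk c (j + 1)).2 := by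
  apply blk_inv
  rw [show blk c (j + 1) = stp (blk c j) (c j) from rfl]
  unfold stp
  rw [if_neg h]
  split_ifs with h2 h3 h4
  · rw [h3]; norm_num
  · norm_num
  · rw [h4]; norm_num
  · norm_num

lemma coeff_one_sub_mul_zero (M : ℤ[X]) : ((1 - X) * M).coeff 0 = M.coeff 0 := by
  simp [sub_mul]

lemma coeff_one_sub_mul_succ (M : ℤ[X]) (n : ℕ) : ((1 - X) * M).coeff (n + 1) = M.coeff (n + 1) - M.coeff n := by
  simp [sub_mul, coeff_X_mul]

lemma one_sub_X_ne : (1 - X : ℤ[X]) ≠ 0 := by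
  intro h
  have := congrArg (fun p => Polynomial.coeff p 0) h
  simp at this

lemma natDegree_one_sub_X_mul (M : ℤ[X]) : ((1 - X) * M).natDegree ≤ M.natDegree + 1 := by
  refine le_trans natDegree_mul_le ?_
  have : (1 - X : ℤ[X]).natDegree ≤ 1 := by
    refine le_trans (natDegree_sub_le _ _) ?_
    simp
  omega

lemma blk_pow (P : ℤ[X]) (hP : P ≠ 0) (k : ℕ) : ∀ n, ((1 - X) ^ k * P).natDegree + 1 ≤ n →
    k + 1 ≤ (blk ((1 - X) ^ k * P).coeff n).2 := by
  induction k with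
  | zero =>
    intro n hn
    rw [pow_zero, one_mul] at *
    exact le_trans (blk_pos P.coeff P.natDegree (leadingCoeff_ne_zero.2 hP)) (blk_mono' _ _ _ hn)
  | succ k ih =>
    obtain ⟨M, hM⟩ : ∃ M, M = (1 - X) ^ k * P := ⟨_, rfl⟩
    have hM0 : M ≠ 0 := by rw [hM]; exact mul_ne_zero (pow_ne_zero _ one_sub_X_ne) hP
    rw [pow_succ', mul_assoc, ← hM]
    rw [← hM] at ih
    -- degree of `(1-X) M` is that of `M` plus one
    have hdeg : ((1 - X) * M).natDegree = M.natDegree + 1 := by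
      rw [natDegree_mul one_sub_X_ne hM0]
      have : (1 - X : ℤ[X]).natDegree = 1 := by
        rw [show (1 - X : ℤ[X]) = -(X - C 1) by simp, natDegree_neg, natDegree_X_sub_C]
      omega
    intro n hn
    refine le_trans ?_ (blk_mono' _ _ _ hn)
    rw [hdeg]
    have hg := blk_grow M.coeff ((1 - X) * M).coeff (coeff_one_sub_mul_zero M) (coeff_one_sub_mul_succ M) (M.natDegree + 1)
    have hz : M.coeff (M.natDegree + 1) = 0 := coeff_eq_zero_of_natDegree_lt (Nat.lt_succ_self _)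
    have hi := ih (M.natDegree + 1 + 1) (by omega)
    rcases hg with ⟨h1, _⟩ | ⟨_, _, _, h4, _, _, h7⟩
    · omega
    · by_contra hc
      exact h7 (by omega) hz

/-- The lower bound for the form at parameter `t`. -/
lemma form_lower (t : ℝ) (ht : 0 < t) (ht1 : t ≤ 1) (m : ℕ) (hm : 1 ≤ m) (P : ℤ[X]) (hP : P ≠ 0) (N : ℕ)
    (hN : ((1 - X) ^ m * P).natDegree < N) :
    2 * m - (m - 1) * t ≤ F (ker t) N ((1 - X) ^ m * P).coeff := by
  obtain ⟨k, rfl⟩ : ∃ k, m = k + 1 := ⟨m - 1, by omega⟩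
  obtain ⟨M, hM⟩ : ∃ M, M = (1 - X) ^ k * P := ⟨_, rfl⟩
  have hM0 : M ≠ 0 := by rw [hM]; exact mul_ne_zero (pow_ne_zero _ one_sub_X_ne) hP
  have hdeg : ((1 - X) * M).natDegree = M.natDegree + 1 := by
    rw [natDegree_mul one_sub_X_ne hM0]
    have : (1 - X : ℤ[X]).natDegree = 1 := by
      rw [show (1 - X : ℤ[X]) = -(X - C 1) by simp, natDegree_neg, natDegree_X_sub_C]
    omega
  rw [pow_succ', mul_assoc, ← hM] at hN ⊢
  obtain ⟨n, rfl⟩ : ∃ n, N = n + 1 := ⟨N - 1, by omega⟩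
  rw [F_ker]
  refine path_ineq t ht ht1 (k + 1) hm (fun i => ((1 - X) * M).coeff i) (fun i => M.coeff i)
    (coeff_one_sub_mul_zero M).symm ?_ n ?_ ?_
  · intro n; rw [coeff_one_sub_mul_succ]; ring
  · apply coeff_eq_zero_of_natDegree_lt; omega
  · have := blk_pow P hP k (n + 1) (by rw [← hM]; omega)
    rw [← hM] at this; exact this

/-- one lower bound for nonzero sequences -/
lemma cost_free (t y : ℝ) (ht : 0 < t) (ht1 : t ≤ 1) (Q : ℤ) :
    cf t y ≤ (Q : ℝ) * (Q - y) + cf t ((1 - t) * y + t * Q) := by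
  have hpos : ∀ (Q : ℤ) (y : ℝ), 0 < Q → cf t y ≤ (Q : ℝ) * (Q - y) + cf t ((1 - t) * y + t * Q) := by
    intro Q y hQ
    have hq : (Q : ℝ) = 1 ∨ (2 : ℝ) ≤ Q := by
      rcases eq_or_lt_of_le (by omega : (1 : ℤ) ≤ Q) with h | h
      · left; rw [← h]; norm_num
      · right; exact_mod_cast h
    have := D_nonneg t Q y ht ht1 hq
    unfold D at this; linarith
  rcases lt_trichotomy Q 0 with hQ | hQ | hQ
  · have h1 := hpos (-Q) (-y) (by omega)
    rw [show (1 - t) * -y + t * ((-Q : ℤ) : ℝ) = -((1 - t) * y + t * Q) by push_cast; ring, cf_even, cf_even] at h1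
    push_cast at h1
    linarith
  · subst hQ
    have := step_zero t y ht ht1 0 0 0 le_rfl
    unfold Phi at this
    simp only [PA, if_true] at this
    simpa using this
  · exact hpos Q y hQ

lemma form_one (t : ℝ) (ht : 0 < t) (ht1 : t ≤ 1) (a : ℕ → ℤ) (n : ℕ) :
    ((∀ j, j < n → a j = 0) ∧ ema t a n = 0) ∨
    1 ≤ ∑ j ∈ range n, (a j : ℝ) * (a j - ema t a j) + cf t (ema t a n) := by
  induction n with
  | zero => left; simp [ema]
  | succ n ih =>
    rcases ih with ⟨h1, h2⟩ | h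
    · by_cases hz : a n = 0
      · left
        refine ⟨fun j hj => ?_, ?_⟩
        · rcases Nat.lt_succ_iff_lt_or_eq.1 hj with h | h
          · exact h1 j h
          · rw [h]; exact hz
        · simp [ema, h2, hz]
      · right
        have hs : ∑ j ∈ range n, (a j : ℝ) * (a j - ema t a j) = 0 := by
          apply sum_eq_zero
          intro j hj
          rw [h1 j (mem_range.1 hj)]; simp
        rw [sum_range_succ, hs, h2]
        simp only [ema, h2]
        have hD : ∀ Q : ℤ, 0 < Q → 1 ≤ (Q : ℝ) * Q + cf t (t * Q) := by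
          intro Q hQ
          have hq : (Q : ℝ) = 1 ∨ (2 : ℝ) ≤ Q := by
            rcases eq_or_lt_of_le (by omega : (1 : ℤ) ≤ Q) with h | h
            · left; rw [← h]; norm_num
            · right; exact_mod_cast h
          have := D_ge t Q 0 ht ht1 hq
          rw [max_eq_left (by norm_num)] at this
          unfold D at this
          rw [cf_in t 0 (by norm_num) (by norm_num)] at this
          simpa using this
        rcases lt_or_gt_of_ne hz with h | h
        · have := hD (- a n) (by omega)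
          rw [show t * ((- a n : ℤ) : ℝ) = -(t * a n) by push_cast; ring, cf_even] at this
          push_cast at this
          simp only [mul_zero, zero_add, sub_zero]
          linarith
        · have := hD (a n) h
          simpa using this
    · right
      rw [sum_range_succ]
      have := cost_free t (ema t a n) ht ht1 (a n)
      simp only [ema]
      linarith

lemma form_ge_one (t : ℝ) (ht : 0 < t) (ht1 : t ≤ 1) (a : ℕ → ℤ) (N j : ℕ) (hj : j < N) (ha : a j ≠ 0) :
    1 ≤ F (ker t) N a := by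
  rw [F_ker]
  rcases form_one t ht ht1 a N with ⟨h, _⟩ | h
  · exact absurd (h j hj) ha
  · have := cf_nonpos t (ema t a N) ht
    linarith



open Polynomial Real MeasureTheory intervalIntegral

/-- beta integrand -/
noncomputable def bI (p q x : ℝ) : ℝ := x ^ (p - 1) * (1 - x) ^ (q - 1)

lemma bI_ofReal (p q x : ℝ) (h0 : 0 ≤ x) (h1 : x ≤ 1) :
    ((bI p q x : ℝ) : ℂ) = (x : ℂ) ^ ((p : ℂ) - 1) * (1 - (x : ℂ)) ^ ((q : ℂ) - 1) := by
  unfold bI
  rw [Complex.ofReal_mul, Complex.ofReal_cpow h0, Complex.ofReal_cpow (by linarith)]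
  push_cast; rfl

lemma bI_int (p q : ℝ) (hp : 0 < p) (hq : 0 < q) : IntervalIntegrable (bI p q) volume 0 1 := by
  have h := Complex.betaIntegral_convergent (u := p) (v := q) (by simpa) (by simpa)
  rw [intervalIntegrable_iff_integrableOn_Ioc_of_le zero_le_one] at h ⊢
  have h2 := h.re
  refine IntegrableOn.congr_fun h2 ?_ measurableSet_Ioc
  intro x hx
  simp only
  rw [← bI_ofReal p q x hx.1.le hx.2]
  simp

lemma bI_val (p q : ℝ) (hp : 0 < p) (hq : 0 < q) :
    ∫ x in (0:ℝ)..1, bI p q x = Real.Gamma p * Real.Gamma q / Real.Gamma (p + q) := by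
  have h := Complex.betaIntegral_eq_Gamma_mul_div (p : ℂ) (q : ℂ) (by simpa) (by simpa)
  have h2 : Complex.betaIntegral p q = ((∫ x in (0:ℝ)..1, bI p q x : ℝ) : ℂ) := by
    unfold Complex.betaIntegral
    rw [← intervalIntegral.integral_ofReal]
    apply intervalIntegral.integral_congr
    intro x hx
    rw [Set.uIcc_of_le zero_le_one] at hx
    simp only
    rw [bI_ofReal p q x hx.1 hx.2]
  rw [h2, ← Complex.ofReal_add, Complex.Gamma_ofReal, Complex.Gamma_ofReal, Complex.Gamma_ofReal] at h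
  exact_mod_cast h

/-- moments of the kernel -/
lemma ker_int (s : ℝ) (hs : 0 < s) (hs1 : s < 1) (n : ℕ) :
    IntervalIntegrable (fun t => ker t n * bI (2 * s) (1 - s) t) volume 0 1 := by
  have h := bI_int (2 * s) (1 - s) (by linarith) (by linarith)
  apply IntervalIntegrable.continuousOn_mul h
  apply Continuous.continuousOn
  cases n with
  | zero => simp only [ker]; fun_prop
  | succ k => simp only [ker]; fun_prop

lemma ker_moment (s : ℝ) (hs : 0 < s) (hs1 : s < 1) (k : ℕ) :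
    ∫ t in (0:ℝ)..1, ker t (k + 1) * bI (2 * s) (1 - s) t
      = -(1 / 2) * (Real.Gamma (2 * s + 1) * Real.Gamma (k + 1 - s) / Real.Gamma (k + 2 + s)) := by
  have h1 : ∫ t in (0:ℝ)..1, ker t (k + 1) * bI (2 * s) (1 - s) t
      = ∫ t in (0:ℝ)..1, -(1 / 2) * bI (2 * s + 1) (k + 1 - s) t := by
    apply intervalIntegral.integral_congr_Ioo_of_le zero_le_one
    intro t ht
    simp only [ker]
    unfold bI
    have h2 : t ^ (2 * s + 1 - 1) = t ^ (2 * s - 1) * t := by
      rw [← Real.rpow_add_one ht.1.ne']; congr 1; ring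
    have h3 : (1 - t) ^ ((k : ℝ) + 1 - s - 1) = (1 - t) ^ (1 - s - 1) * (1 - t) ^ k := by
      rw [← Real.rpow_natCast, ← Real.rpow_add (by linarith [ht.2])]; congr 1; ring
    rw [h2, h3]; ring
  have hk : (0:ℝ) ≤ k := Nat.cast_nonneg k
  rw [h1, intervalIntegral.integral_const_mul, bI_val _ _ (by linarith) (by linarith),
    show 2 * s + 1 + ((k : ℝ) + 1 - s) = (k : ℝ) + 2 + s by ring]

lemma ker_moment_zero (s : ℝ) (hs : 0 < s) (hs1 : s < 1) :
    ∫ t in (0:ℝ)..1, ker t 0 * bI (2 * s) (1 - s) t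
      = Real.Gamma (2 * s) * Real.Gamma (1 - s) / Real.Gamma (1 + s) := by
  simp only [ker, one_mul]
  rw [bI_val _ _ (by linarith) (by linarith)]
  congr 2; ring

/-- normalising constant -/
noncomputable def Kc (s : ℝ) : ℝ := J s 0 / (Real.Gamma (2 * s) * Real.Gamma (1 - s) / Real.Gamma (1 + s))

lemma Bpos (s : ℝ) (hs : 0 < s) (hs1 : s < 1) : 0 < Real.Gamma (2 * s) * Real.Gamma (1 - s) / Real.Gamma (1 + s) :=
  div_pos (mul_pos (Real.Gamma_pos_of_pos (by linarith)) (Real.Gamma_pos_of_pos (by linarith)))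
    (Real.Gamma_pos_of_pos (by linarith))

lemma J_eq_ker (s : ℝ) (hs : 0 < s) (hs1 : s < 1) (n : ℕ) :
    J s n = Kc s * ∫ t in (0:ℝ)..1, ker t n * bI (2 * s) (1 - s) t := by
  have hB := Bpos s hs hs1
  have key : ∀ k : ℕ, J s (k + 1) = Kc s * (-(1 / 2) * (Real.Gamma (2 * s + 1) * Real.Gamma (k + 1 - s) / Real.Gamma (k + 2 + s))) := by
    intro k
    induction k with
    | zero =>
      have h := J_rec s hs.le 0
      have e1 : Real.Gamma (2 * s + 1) = 2 * s * Real.Gamma (2 * s) := Real.Gamma_add_one (by linarith)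
      have e2 : Real.Gamma (((0 : ℕ) : ℝ) + 2 + s) = (1 + s) * Real.Gamma (1 + s) := by
        rw [show ((0 : ℕ) : ℝ) + 2 + s = (1 + s) + 1 by push_cast; ring]
        exact Real.Gamma_add_one (by linarith)
      have g1 : 0 < Real.Gamma (2 * s) := Real.Gamma_pos_of_pos (by linarith)
      have g2 : 0 < Real.Gamma (1 - s) := Real.Gamma_pos_of_pos (by linarith)
      have g3 : 0 < Real.Gamma (1 + s) := Real.Gamma_pos_of_pos (by linarith)
      rw [e1, e2]
      unfold Kc
      push_cast at *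
      rw [zero_add] at *
      have h' : J s 1 = - s * J s 0 / (1 + s) := by
        rw [eq_div_iff (by linarith)]; linarith
      rw [h']
      field_simp
    | succ k ih =>
      have h := J_rec s hs.le (k + 1)
      have hk : (0:ℝ) ≤ k := Nat.cast_nonneg k
      have e1 : Real.Gamma (((k + 1 : ℕ) : ℝ) + 1 - s) = ((k : ℝ) + 1 - s) * Real.Gamma (k + 1 - s) := by
        rw [show ((k + 1 : ℕ) : ℝ) + 1 - s = ((k : ℝ) + 1 - s) + 1 by push_cast; ring]
        exact Real.Gamma_add_one (by linarith)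
      have e2 : Real.Gamma (((k + 1 : ℕ) : ℝ) + 2 + s) = ((k : ℝ) + 2 + s) * Real.Gamma (k + 2 + s) := by
        rw [show ((k + 1 : ℕ) : ℝ) + 2 + s = ((k : ℝ) + 2 + s) + 1 by push_cast; ring]
        exact Real.Gamma_add_one (by linarith)
      have g3 : 0 < Real.Gamma (k + 2 + s) := Real.Gamma_pos_of_pos (by linarith)
      rw [e1, e2]
      rw [ih] at h
      push_cast at h
      have hp : (k : ℝ) + 1 + 1 + s ≠ 0 := by linarith
      have h' : J s (k + 1 + 1) = ((k : ℝ) + 1 - s) * (Kc s * (-(1 / 2) * (Real.Gamma (2 * s + 1) * Real.Gamma (k + 1 - s) / Real.Gamma (k + 2 + s)))) / ((k : ℝ) + 1 + 1 + s) := by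
        rw [eq_div_iff hp]; linarith
      rw [h']
      have hp2 : (k : ℝ) + 2 + s ≠ 0 := by linarith
      rw [show (k : ℝ) + 1 + 1 + s = (k : ℝ) + 2 + s by ring]
      field_simp
  cases n with
  | zero =>
    rw [ker_moment_zero s hs hs1]
    unfold Kc
    rw [div_mul_cancel₀ _ hB.ne']
  | succ k => rw [ker_moment s hs hs1, key k]

lemma J1_eq (s : ℝ) (hs : 0 ≤ s) : J s 1 = - (s / (1 + s)) * J s 0 := by
  have h := J_rec s hs 0
  push_cast at h
  rw [zero_add] at h
  have : (1 + s) ≠ 0 := by linarith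
  field_simp
  linarith

lemma Kc_nonneg (s : ℝ) (hs : 0 < s) (hs1 : s < 1) : 0 ≤ Kc s := by
  unfold Kc
  exact div_nonneg (J0_nonneg s) (Bpos s hs hs1).le

lemma F_mix (s : ℝ) (hs : 0 < s) (hs1 : s < 1) (N : ℕ) (a : ℕ → ℤ) :
    F (J s) N a = Kc s * ∫ t in (0:ℝ)..1, F (ker t) N a * bI (2 * s) (1 - s) t := by
  have h1 : ∀ t : ℝ, F (ker t) N a * bI (2 * s) (1 - s) t
      = ∑ j ∈ Finset.range N, ∑ k ∈ Finset.range N, (a j : ℝ) * (a k : ℝ) * (ker t (dst j k) * bI (2 * s) (1 - s) t) := by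
    intro t
    unfold F
    rw [Finset.sum_mul]
    apply Finset.sum_congr rfl; intro j _
    rw [Finset.sum_mul]
    apply Finset.sum_congr rfl; intro k _
    ring
  simp_rw [h1]
  rw [intervalIntegral.integral_finsetSum]
  · unfold F
    rw [Finset.mul_sum]
    apply Finset.sum_congr rfl; intro j _
    rw [intervalIntegral.integral_finsetSum]
    · rw [Finset.mul_sum]
      apply Finset.sum_congr rfl; intro k _
      rw [intervalIntegral.integral_const_mul, J_eq_ker s hs hs1]; ring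
    · intro k _
      exact (ker_int s hs hs1 _).const_mul _
  · intro j _
    have := IntervalIntegrable.sum (μ := volume) (a := (0:ℝ)) (b := 1) (Finset.range N)
      (f := fun k t => (a j : ℝ) * (a k : ℝ) * (ker t (dst j k) * bI (2 * s) (1 - s) t))
      (fun k _ => (ker_int s hs hs1 _).const_mul _)
    have e : (fun t => ∑ k ∈ Finset.range N, (a j : ℝ) * (a k : ℝ) * (ker t (dst j k) * bI (2 * s) (1 - s) t))
        = ∑ k ∈ Finset.range N, fun t => (a j : ℝ) * (a k : ℝ) * (ker t (dst j k) * bI (2 * s) (1 - s) t) := by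
      ext t; rw [Finset.sum_apply]
    rw [e]; exact this

lemma F_mix_int (s : ℝ) (hs : 0 < s) (hs1 : s < 1) (N : ℕ) (a : ℕ → ℤ) :
    IntervalIntegrable (fun t => F (ker t) N a * bI (2 * s) (1 - s) t) volume 0 1 := by
  apply IntervalIntegrable.continuousOn_mul (bI_int (2 * s) (1 - s) (by linarith) (by linarith))
  apply Continuous.continuousOn
  unfold F
  apply continuous_finsetSum; intro j _
  apply continuous_finsetSum; intro k _
  apply Continuous.mul continuous_const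
  generalize dst j k = n
  cases n with
  | zero => simp only [ker]; fun_prop
  | succ k => simp only [ker]; fun_prop

lemma bI_nonneg (p q t : ℝ) (h0 : 0 ≤ t) (h1 : t ≤ 1) : 0 ≤ bI p q t :=
  mul_nonneg (Real.rpow_nonneg h0 _) (Real.rpow_nonneg (by linarith) _)

lemma F_lower (s : ℝ) (hs : 0 < s) (hs1 : s < 1) (m : ℕ) (hm : 1 ≤ m) (P : ℤ[X]) (hP : P ≠ 0) (N : ℕ)
    (hN : ((1 - X) ^ m * P).natDegree < N) :
    2 * (m + s) / (1 + s) * J s 0 ≤ F (J s) N ((1 - X) ^ m * P).coeff := by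
  rw [F_mix s hs hs1]
  have h1 : ∫ t in (0:ℝ)..1, (2 * m - (m - 1) * t) * bI (2 * s) (1 - s) t
      ≤ ∫ t in (0:ℝ)..1, F (ker t) N ((1 - X) ^ m * P).coeff * bI (2 * s) (1 - s) t := by
    apply intervalIntegral.integral_mono_on_of_le_Ioo zero_le_one
    · apply IntervalIntegrable.continuousOn_mul (bI_int (2 * s) (1 - s) (by linarith) (by linarith))
      apply Continuous.continuousOn; fun_prop
    · exact F_mix_int s hs hs1 N _
    · intro t ht
      exact mul_le_mul_of_nonneg_right (form_lower t ht.1 ht.2.le m hm P hP N hN)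
        (bI_nonneg _ _ t ht.1.le ht.2.le)
  have h2 : Kc s * ∫ t in (0:ℝ)..1, (2 * m - (m - 1) * t) * bI (2 * s) (1 - s) t
      = 2 * m * J s 0 + 2 * (m - 1) * J s 1 := by
    rw [J_eq_ker s hs hs1 0, J_eq_ker s hs hs1 1]
    have : ∀ t : ℝ, (2 * m - (m - 1) * t) * bI (2 * s) (1 - s) t
        = 2 * m * (ker t 0 * bI (2 * s) (1 - s) t) + 2 * (m - 1) * (ker t 1 * bI (2 * s) (1 - s) t) := by
      intro t; simp only [ker]; ring
    simp_rw [this]
    rw [intervalIntegral.integral_add ((ker_int s hs hs1 _).const_mul _) ((ker_int s hs hs1 _).const_mul _),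
      intervalIntegral.integral_const_mul, intervalIntegral.integral_const_mul]
    ring
  have h3 := mul_le_mul_of_nonneg_left h1 (Kc_nonneg s hs hs1)
  rw [h2, J1_eq s hs.le] at h3
  refine le_trans (le_of_eq ?_) h3
  have : (1 + s) ≠ 0 := by linarith
  field_simp
  ring

lemma J_one (n : ℕ) : J 1 n = J 1 0 * ker 1 n := by
  have h0 := J_rec 1 zero_le_one 0
  have h1 := J_rec 1 zero_le_one 1
  cases n with
  | zero => simp [ker]
  | succ n =>
    cases n with
    | zero => simp only [ker]; push_cast at h0; simp at *; linarith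
    | succ n =>
      have hz : ∀ k : ℕ, J 1 (k + 2) = 0 := by
        intro k
        induction k with
        | zero =>
          have h2 : ((1:ℝ) + 1 + 1) * J 1 2 = 0 := by push_cast at h1; rw [h1]; ring
          have h3 : J 1 2 = 0 := by linarith
          exact h3
        | succ k ih =>
          have h := J_rec 1 zero_le_one (k + 2)
          rw [ih, mul_zero] at h
          have : ((k + 2 : ℕ) : ℝ) + 1 + 1 ≠ 0 := by positivity
          exact (mul_eq_zero.1 h).resolve_left this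
      rw [hz n]; simp [ker]

lemma F_one (N : ℕ) (a : ℕ → ℤ) : F (J 1) N a = J 1 0 * F (ker 1) N a := by
  unfold F
  rw [Finset.mul_sum]
  apply Finset.sum_congr rfl; intro j _
  rw [Finset.mul_sum]
  apply Finset.sum_congr rfl; intro k _
  rw [J_one]; ring

lemma F_lower' (s : ℝ) (hs : 0 < s) (hs1 : s ≤ 1) (m : ℕ) (hm : 1 ≤ m) (P : ℤ[X]) (hP : P ≠ 0) (N : ℕ)
    (hN : ((1 - X) ^ m * P).natDegree < N) :
    2 * (m + s) / (1 + s) * J s 0 ≤ F (J s) N ((1 - X) ^ m * P).coeff := by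
  rcases hs1.lt_or_eq with h | rfl
  · exact F_lower s hs h m hm P hP N hN
  · rw [F_one]
    have := form_lower 1 one_pos le_rfl m hm P hP N hN
    have h0 := J0_nonneg 1
    have h2 := mul_le_mul_of_nonneg_left this h0
    refine le_trans (le_of_eq ?_) h2
    ring

lemma F_ge_one (s : ℝ) (hs : 0 < s) (hs1 : s ≤ 1) (N : ℕ) (a : ℕ → ℤ) (j : ℕ) (hj : j < N) (ha : a j ≠ 0) :
    J s 0 ≤ F (J s) N a := by
  rcases hs1.lt_or_eq with h | rfl
  · rw [F_mix s hs h]
    have h1 : ∫ t in (0:ℝ)..1, ker t 0 * bI (2 * s) (1 - s) t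
        ≤ ∫ t in (0:ℝ)..1, F (ker t) N a * bI (2 * s) (1 - s) t := by
      apply intervalIntegral.integral_mono_on_of_le_Ioo zero_le_one
      · exact ker_int s hs h 0
      · exact F_mix_int s hs h N _
      · intro t ht
        exact mul_le_mul_of_nonneg_right (form_ge_one t ht.1 ht.2.le a N j hj ha)
          (bI_nonneg _ _ t ht.1.le ht.2.le)
    have h3 := mul_le_mul_of_nonneg_left h1 (Kc_nonneg s hs h)
    rw [← J_eq_ker s hs h 0] at h3
    exact h3
  · rw [F_one]
    have := form_ge_one 1 one_pos le_rfl a N j hj ha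
    have h0 := J0_nonneg 1
    nlinarith



open Polynomial Real MeasureTheory intervalIntegral

lemma norm_one_sub_exp (θ : ℝ) : ‖(1 : ℂ) - Complex.exp (θ * Complex.I)‖ ^ 2 = 2 - 2 * cos θ := by
  rw [← Complex.normSq_eq_norm_sq, Complex.normSq_apply]
  have h1 : (1 - Complex.exp (θ * Complex.I)).re = 1 - cos θ := by
    simp [Complex.exp_ofReal_mul_I_re]
  have h2 : (1 - Complex.exp (θ * Complex.I)).im = - sin θ := by
    simp [Complex.exp_ofReal_mul_I_im]
  rw [h1, h2]
  nlinarith [sin_sq_add_cos_sq θ]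

lemma norm_rpow (s θ : ℝ) : ‖(1 : ℂ) - Complex.exp (θ * Complex.I)‖ ^ (2 * s) = w s θ := by
  unfold w
  rw [← norm_one_sub_exp, ← Real.rpow_natCast, ← Real.rpow_mul (norm_nonneg _)]
  norm_num

/-- polynomial with prescribed monomials -/
noncomputable def mono {ι : Type} (S : Finset ι) (c : ι → ℤ) (p : ι → ℕ) : ℤ[X] := ∑ i ∈ S, C (c i) * X ^ (p i)

lemma cos_dst (j k : ℕ) (θ : ℝ) : cos ((dst j k : ℕ) * θ) = cos (j * θ) * cos (k * θ) + sin (j * θ) * sin (k * θ) := by
  rw [← cos_sub]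
  unfold dst
  rcases le_total j k with h | h
  · have : (((j : ℤ) - (k : ℤ)).natAbs : ℝ) = (k : ℝ) - j := by
      have h1 : (((j : ℤ) - (k : ℤ)).natAbs) = k - j := by omega
      rw [h1, Nat.cast_sub h]
    rw [this, ← cos_neg]; congr 1; ring
  · have : (((j : ℤ) - (k : ℤ)).natAbs : ℝ) = (j : ℝ) - k := by
      have h1 : (((j : ℤ) - (k : ℤ)).natAbs) = j - k := by omega
      rw [h1, Nat.cast_sub h]
    rw [this]; congr 1; ring

lemma normSq_mono {ι : Type} (S : Finset ι) (c : ι → ℤ) (p : ι → ℕ) (θ : ℝ) :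
    ‖aeval (Complex.exp (θ * Complex.I)) (mono S c p)‖ ^ 2
      = ∑ j ∈ S, ∑ k ∈ S, (c j : ℝ) * (c k : ℝ) * cos ((dst (p j) (p k) : ℕ) * θ) := by
  rw [← Complex.normSq_eq_norm_sq, Complex.normSq_apply]
  have h0 : aeval (Complex.exp (θ * Complex.I)) (mono S c p)
      = ∑ j ∈ S, (((c j : ℤ) : ℝ) : ℂ) * Complex.exp (((p j : ℝ) * θ : ℝ) * Complex.I) := by
    unfold mono
    rw [map_sum]
    apply Finset.sum_congr rfl
    intro j _
    rw [map_mul, map_pow, aeval_X, aeval_C, ← Complex.exp_nat_mul]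
    congr 1
    congr 1; push_cast; ring
  have hre : (aeval (Complex.exp (θ * Complex.I)) (mono S c p)).re = ∑ j ∈ S, (c j : ℝ) * cos (p j * θ) := by
    rw [h0, Complex.re_sum]
    apply Finset.sum_congr rfl
    intro j _
    rw [Complex.re_ofReal_mul, Complex.exp_ofReal_mul_I_re]
  have him : (aeval (Complex.exp (θ * Complex.I)) (mono S c p)).im = ∑ j ∈ S, (c j : ℝ) * sin (p j * θ) := by
    rw [h0, Complex.im_sum]
    apply Finset.sum_congr rfl
    intro j _
    rw [Complex.im_ofReal_mul, Complex.exp_ofReal_mul_I_im]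
  rw [hre, him, Finset.sum_mul_sum, Finset.sum_mul_sum, ← Finset.sum_add_distrib]
  apply Finset.sum_congr rfl; intro j _
  rw [← Finset.sum_add_distrib]
  apply Finset.sum_congr rfl; intro k _
  rw [cos_dst]; ring

/-- the weighted integral -/
noncomputable def E (s : ℝ) (Q : Polynomial ℤ) : ℝ :=
  ∫ θ in (-π)..π, w s θ * ‖aeval (Complex.exp (θ * Complex.I)) Q‖ ^ 2

lemma E_mono {ι : Type} (s : ℝ) (hs : 0 ≤ s) (S : Finset ι) (c : ι → ℤ) (p : ι → ℕ) :
    E s (mono S c p) = ∑ j ∈ S, ∑ k ∈ S, (c j : ℝ) * (c k : ℝ) * J s (dst (p j) (p k)) := by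
  unfold E
  have hw := w_cont s hs
  have h1 : ∀ θ : ℝ, w s θ * ‖aeval (Complex.exp (θ * Complex.I)) (mono S c p)‖ ^ 2
      = ∑ j ∈ S, ∑ k ∈ S, ((c j : ℝ) * (c k : ℝ)) * (w s θ * cos ((dst (p j) (p k) : ℕ) * θ)) := by
    intro θ
    rw [normSq_mono, Finset.mul_sum]
    apply Finset.sum_congr rfl; intro j _
    rw [Finset.mul_sum]
    apply Finset.sum_congr rfl; intro k _
    ring
  simp_rw [h1]
  rw [intervalIntegral.integral_finsetSum]
  · apply Finset.sum_congr rfl; intro j _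
    rw [intervalIntegral.integral_finsetSum]
    · apply Finset.sum_congr rfl; intro k _
      rw [intervalIntegral.integral_const_mul]; rfl
    · intro k _
      apply Continuous.intervalIntegrable; fun_prop
  · intro j _
    apply Continuous.intervalIntegrable; fun_prop

lemma E_eq (s : ℝ) (hs : 0 ≤ s) (Q : Polynomial ℤ) (N : ℕ) (hN : Q.natDegree < N) :
    E s Q = F (J s) N Q.coeff := by
  have h := E_mono s hs (Finset.range N) Q.coeff (fun i => i)
  have e : mono (Finset.range N) Q.coeff (fun i => i) = Q := by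
    unfold mono
    exact (Q.as_sum_range_C_mul_X_pow' hN).symm
  rw [e] at h
  exact h

lemma E_succ (s : ℝ) (hs : 0 ≤ s) (P : ℤ[X]) : E (s + 1) P = E s ((1 - X) * P) := by
  unfold E
  congr 1; ext θ
  have h1 : w (s + 1) θ = w s θ * (2 - 2 * cos θ) := by
    unfold w
    rw [Real.rpow_add_one' (base_nonneg θ) (by linarith)]
  rw [h1, map_mul, norm_mul, mul_pow, map_sub, map_one, aeval_X, norm_one_sub_exp]
  ring

lemma E_pow (s : ℝ) (hs : 0 ≤ s) (m : ℕ) : ∀ P : ℤ[X], E (m + s) P = E s ((1 - X) ^ m * P) := by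
  induction m with
  | zero => intro P; simp
  | succ m ih =>
    intro P
    have hm : (0:ℝ) ≤ m := Nat.cast_nonneg m
    rw [show ((m + 1 : ℕ) : ℝ) + s = ((m : ℝ) + s) + 1 by push_cast; ring, E_succ _ (by linarith), ih, pow_succ, mul_assoc]

lemma E_neg_one_pow (s : ℝ) (m : ℕ) (P : ℤ[X]) : E s ((1 - X) ^ m * P) = E s ((X - 1) ^ m * P) := by
  unfold E
  congr 1; ext θ
  rw [map_mul, map_mul, map_pow, map_pow, norm_mul, norm_mul, norm_pow, norm_pow]
  simp only [map_sub, map_one, aeval_X]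
  rw [norm_sub_rev]

/-- divisibility criterion -/
lemma fam_dvd {ι : Type} (S : Finset ι) (c : ι → ℤ) (p : ι → ℕ) (m : ℕ)
    (h : ∀ d, d < m → ∑ i ∈ S, c i * ((p i).descFactorial d : ℤ) = 0) : (X - 1) ^ m ∣ mono S c p := by
  rw [show (X - 1 : ℤ[X]) = X - C 1 by simp, X_sub_C_pow_dvd_iff, X_pow_dvd_iff]
  intro d hd
  have h1 := h d hd
  have e : ((mono S c p).comp (X + C 1)).coeff d = ∑ i ∈ S, c i * ((p i).choose d : ℤ) := by
    unfold mono
    rw [Polynomial.sum_comp, finsetSum_coeff]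
    apply Finset.sum_congr rfl
    intro i _
    rw [mul_comp, C_comp, pow_comp, X_comp, coeff_C_mul, map_one, coeff_X_add_one_pow]
  rw [e]
  have h2 : ∑ i ∈ S, c i * ((p i).descFactorial d : ℤ) = (d.factorial : ℤ) * ∑ i ∈ S, c i * ((p i).choose d : ℤ) := by
    rw [Finset.mul_sum]
    apply Finset.sum_congr rfl
    intro i _
    rw [Nat.descFactorial_eq_factorial_mul_choose]; push_cast; ring
  rw [h2] at h1
  rcases mul_eq_zero.1 h1 with h3 | h3
  · exact absurd h3 (by exact_mod_cast (Nat.factorial_pos d).ne')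
  · exact h3

lemma fam_monic {K : ℕ} (c : Fin (K + 1) → ℤ) (p : Fin (K + 1) → ℕ) (hl : ∀ i, i ≠ Fin.last K → p i < p (Fin.last K))
    (hc : c (Fin.last K) = 1) : (mono Finset.univ c p).Monic := by
  apply monic_of_natDegree_le_of_coeff_eq_one (p (Fin.last K))
  · unfold mono
    apply natDegree_sum_le_of_forall_le
    intro i _
    refine le_trans (natDegree_C_mul_X_pow_le _ _) ?_
    by_cases h : i = Fin.last K
    · rw [h]
    · exact (hl i h).le
  · unfold mono
    rw [finsetSum_coeff, Finset.sum_eq_single (Fin.last K)]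
    · rw [coeff_C_mul_X_pow, if_pos rfl, hc]
    · intro i _ hi
      rw [coeff_C_mul_X_pow, if_neg (hl i hi).ne']
    · intro h; exact absurd (Finset.mem_univ _) h

lemma fam_E {K : ℕ} (s : ℝ) (hs : 0 ≤ s) (m : ℕ) (c : Fin (K + 1) → ℤ) (p : Fin (K + 1) → ℕ)
    (hl : ∀ i, i ≠ Fin.last K → p i < p (Fin.last K)) (hc : c (Fin.last K) = 1)
    (h : ∀ d, d < m → ∑ i, c i * ((p i).descFactorial d : ℤ) = 0) :
    ∃ P : ℤ[X], P.Monic ∧ E (m + s) P = ∑ j, ∑ k, (c j : ℝ) * (c k : ℝ) * J s (dst (p j) (p k)) := by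
  obtain ⟨P, hP⟩ := fam_dvd Finset.univ c p m h
  have hm := fam_monic c p hl hc
  rw [hP] at hm
  refine ⟨P, Monic.of_mul_monic_left (by
    rw [show (X - 1 : ℤ[X]) = X - C 1 by simp]
    exact (monic_X_sub_C 1).pow m) hm, ?_⟩
  rw [E_pow s hs, E_neg_one_pow, ← hP, E_mono s hs]

/-- upper bound for spread families -/
lemma upper {K : ℕ} (s : ℝ) (hs : 0 ≤ s) (hs1 : s ≤ 1) (c : Fin K → ℤ) (p : Fin K → ℕ) (A : Fin K → Fin K → Bool)
    (n b : ℕ) (hc : ∀ i, c i = 1 ∨ c i = -1)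
    (hA : ∀ i k, i ≠ k → (A i k = true → c i = c k ∧ dst (p i) (p k) = 1) ∧ (A i k = false → n + 1 ≤ dst (p i) (p k)))
    (hb : (∑ i, ∑ k, if (i ≠ k ∧ A i k = true) then 1 else 0 : ℕ) = b) :
    ∑ j, ∑ k, (c j : ℝ) * (c k : ℝ) * J s (dst (p j) (p k))
      ≤ K * J s 0 + b * J s 1 + K * K * (J s 0 / (n + 1)) := by
  have h0 := J0_nonneg s
  have hn : (0:ℝ) < (n : ℝ) + 1 := by positivity
  have hq : 0 ≤ J s 0 / (n + 1) := div_nonneg h0 hn.le
  have key : ∀ j k, (c j : ℝ) * (c k : ℝ) * J s (dst (p j) (p k))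
      ≤ (if j = k then J s 0 else 0) + (if (j ≠ k ∧ A j k = true) then (1:ℝ) else 0) * J s 1 + J s 0 / (n + 1) := by
    intro j k
    by_cases hjk : j = k
    · subst hjk
      have : (c j : ℝ) * (c j : ℝ) = 1 := by rcases hc j with h | h <;> rw [h] <;> norm_num
      rw [this, show dst (p j) (p j) = 0 by unfold dst; simp]
      simp
      exact hq
    · obtain ⟨h1, h2⟩ := hA j k hjk
      cases hAv : A j k with
      | true =>
        obtain ⟨h3, h4⟩ := h1 hAv
        rw [h3, h4]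
        have : (c k : ℝ) * (c k : ℝ) = 1 := by rcases hc k with h | h <;> rw [h] <;> norm_num
        rw [this]
        simp [hjk]
        exact hq
      | false =>
        have h3 := h2 hAv
        obtain ⟨d, hd⟩ : ∃ d, dst (p j) (p k) = d + 1 := ⟨dst (p j) (p k) - 1, by omega⟩
        rw [hd]
        have h5 := J_lower s hs hs1 d
        have h6 := J_nonpos s hs hs1 d
        have h7 : J s 0 / ((d:ℝ) + 1) ≤ J s 0 / (n + 1) := by
          apply div_le_div_of_nonneg_left h0 hn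
          have : n ≤ d := by omega
          have : (n:ℝ) ≤ d := by exact_mod_cast this
          linarith
        simp [hjk]
        rcases hc j with h8 | h8 <;> rcases hc k with h9 | h9 <;> rw [h8, h9] <;> push_cast <;> linarith
  calc ∑ j, ∑ k, (c j : ℝ) * (c k : ℝ) * J s (dst (p j) (p k))
      ≤ ∑ j, ∑ k, ((if j = k then J s 0 else 0) + (if (j ≠ k ∧ A j k = true) then (1:ℝ) else 0) * J s 1 + J s 0 / (n + 1)) :=
        Finset.sum_le_sum (fun j _ => Finset.sum_le_sum (fun k _ => key j k))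
    _ = K * J s 0 + b * J s 1 + K * K * (J s 0 / (n + 1)) := by
        simp_rw [Finset.sum_add_distrib]
        congr 1
        · congr 1
          · simp
          · simp_rw [← Finset.sum_mul]
            congr 1
            rw [← hb]; push_cast; rfl
        · simp; ring



open Polynomial Real MeasureTheory intervalIntegral

lemma dF (n k : ℕ) : (n.descFactorial (k + 1) : ℤ) = ((n : ℤ) - k) * (n.descFactorial k : ℤ) := by
  rw [Nat.descFactorial_succ]
  rcases le_or_gt k n with h | h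
  · rw [Nat.cast_mul, Nat.cast_sub h]
  · rw [Nat.descFactorial_of_lt h]; simp

/-- falling factorial as an integer polynomial -/
def pz : ℕ → ℤ → ℤ
  | 0, _ => 1
  | k + 1, x => (x - k) * pz k x

lemma pz_eq (n k : ℕ) : (n.descFactorial k : ℤ) = pz k n := by
  induction k with
  | zero => simp [pz]
  | succ k ih => rw [dF, ih]; rfl

lemma fam_E' {K : ℕ} (s : ℝ) (hs : 0 ≤ s) (m : ℕ) (c : Fin (K + 1) → ℤ) (p : Fin (K + 1) → ℕ)
    (hl : ∀ i, i ≠ Fin.last K → p i < p (Fin.last K)) (hc : c (Fin.last K) = 1)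
    (h : ∀ d, d < m → ∑ i, c i * pz d (p i) = 0) :
    ∃ P : ℤ[X], P.Monic ∧ E (m + s) P = ∑ j, ∑ k, (c j : ℝ) * (c k : ℝ) * J s (dst (p j) (p k)) := by
  apply fam_E s hs m c p hl hc
  intro d hd
  rw [← h d hd]
  apply Finset.sum_congr rfl
  intro i _
  rw [pz_eq]

/-- adjacency pattern of the sorted exponents: `(1,2), (3,4), ...` -/
def adjA (K : ℕ) (i k : Fin K) : Bool :=
  decide ((i.val + 1 = k.val ∧ i.val % 2 = 1) ∨ (k.val + 1 = i.val ∧ k.val % 2 = 1))

/-- the target upper estimate at stage `n` -/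
def Fam (m : ℕ) : Prop := ∀ s : ℝ, 0 ≤ s → s ≤ 1 → ∀ n : ℕ, ∃ P : ℤ[X], P.Monic ∧
  E (m + s) P ≤ 2 * m * J s 0 + 2 * (m - 1) * J s 1 + (2 * m) * (2 * m) * (J s 0 / (n + 1))

lemma fam1 : Fam 1 := by
  intro s hs hs1 n
  obtain ⟨P, hP, hE⟩ := fam_E' s hs 1 (![-1, 1] : Fin 2 → ℤ) (![0, n + 1] : Fin 2 → ℕ)
    (by intro i hi; fin_cases i <;> simp at *) (by simp) (by
      intro d hd; interval_cases d <;> simp [Fin.sum_univ_succ, pz])
  refine ⟨P, hP, ?_⟩
  rw [hE]
  have := upper s hs hs1 (![-1, 1] : Fin 2 → ℤ) (![0, n + 1] : Fin 2 → ℕ) (adjA 2) n 0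
    (by intro i; fin_cases i <;> simp) (by
      intro i k hik; fin_cases i <;> fin_cases k <;> simp [adjA, dst] at * <;> omega) (by decide)
  refine le_trans this (le_of_eq ?_)
  push_cast; ring

lemma fam2 : Fam 2 := by
  intro s hs hs1 n
  obtain ⟨P, hP, hE⟩ := fam_E' s hs 2 (![1, -1, -1, 1] : Fin 4 → ℤ) (![0, n + 1, n + 2, 2 * n + 3] : Fin 4 → ℕ)
    (by intro i hi; fin_cases i <;> simp at * <;> omega) (by simp) (by
      intro d hd; interval_cases d <;> simp [Fin.sum_univ_succ, pz] <;> ring)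
  refine ⟨P, hP, ?_⟩
  rw [hE]
  have := upper s hs hs1 (![1, -1, -1, 1] : Fin 4 → ℤ) (![0, n + 1, n + 2, 2 * n + 3] : Fin 4 → ℕ) (adjA 4) n 2
    (by intro i; fin_cases i <;> simp) (by
      intro i k hik; fin_cases i <;> fin_cases k <;> simp [adjA, dst] at * <;> omega) (by decide)
  refine le_trans this (le_of_eq ?_)
  push_cast; ring

lemma fam3 : Fam 3 := by
  intro s hs hs1 n
  obtain ⟨P, hP, hE⟩ := fam_E' s hs 3 (![-1, 1, 1, -1, -1, 1] : Fin 6 → ℤ)
    (![0, n + 1, n + 2, 3 * n + 4, 3 * n + 5, 4 * n + 6] : Fin 6 → ℕ)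
    (by intro i hi; fin_cases i <;> simp at * <;> omega) (by simp) (by
      intro d hd; interval_cases d <;> simp [Fin.sum_univ_succ, pz] <;> ring)
  refine ⟨P, hP, ?_⟩
  rw [hE]
  have := upper s hs hs1 (![-1, 1, 1, -1, -1, 1] : Fin 6 → ℤ)
    (![0, n + 1, n + 2, 3 * n + 4, 3 * n + 5, 4 * n + 6] : Fin 6 → ℕ) (adjA 6) n 4
    (by intro i; fin_cases i <;> simp) (by
      intro i k hik; fin_cases i <;> fin_cases k <;> simp [adjA, dst] at * <;> omega) (by decide)
  refine le_trans this (le_of_eq ?_)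
  push_cast; ring

lemma pell4 (n : ℕ) : ∃ h l : ℕ, n ≤ h ∧ n + 1 ≤ l ∧ ((l : ℤ) + h) * (l + h + 1) = 2 * l ^ 2 := by
  induction n with
  | zero => exact ⟨0, 1, by norm_num, by norm_num, by norm_num⟩
  | succ n ih =>
    obtain ⟨h, l, h1, h2, h3⟩ := ih
    refine ⟨h + 2 * l, 5 * l + 2 * h + 1, by omega, by omega, ?_⟩
    push_cast
    linear_combination h3

lemma pell5 (n : ℕ) : ∃ b e : ℕ, n ≤ b ∧ n ≤ e ∧ (e : ℤ) * (2 * e + 3 + 2 * b) = b * (2 * b + 1) := by
  induction n with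
  | zero => exact ⟨0, 0, by norm_num, by norm_num, by norm_num⟩
  | succ n ih =>
    obtain ⟨b, e, h1, h2, h3⟩ := ih
    refine ⟨13 * b + 8 * e + 10, 8 * b + 5 * e + 6, by omega, by omega, ?_⟩
    push_cast
    linear_combination h3

set_option maxHeartbeats 4000000 in
lemma fam4 : Fam 4 := by
  intro s hs hs1 n
  obtain ⟨h, l, h1, h2, h3⟩ := pell4 (n + 1)
  obtain ⟨P, hP, hE⟩ := fam_E' s hs 4 (![1, -1, -1, 1, 1, -1, -1, 1] : Fin 8 → ℤ)
    (![0, h, h + 1, l + h, l + h + 1, 2 * l + h, 2 * l + h + 1, 2 * l + 2 * h + 1] : Fin 8 → ℕ)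
    (by intro i hi; fin_cases i <;> simp at * <;> omega) (by simp) (by
      intro d hd
      interval_cases d
      · simp [Fin.sum_univ_succ, pz]
      · simp [Fin.sum_univ_succ, pz]; ring
      · simp [Fin.sum_univ_succ, pz]; linear_combination 2 * h3
      · simp [Fin.sum_univ_succ, pz]; linear_combination (6 * ((l:ℤ) + h) - 3) * h3)
  refine ⟨P, hP, ?_⟩
  rw [hE]
  have := upper s hs hs1 (![1, -1, -1, 1, 1, -1, -1, 1] : Fin 8 → ℤ)
    (![0, h, h + 1, l + h, l + h + 1, 2 * l + h, 2 * l + h + 1, 2 * l + 2 * h + 1] : Fin 8 → ℕ) (adjA 8) n 6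
    (by intro i; fin_cases i <;> simp) (by
      intro i k hik; fin_cases i <;> fin_cases k <;> simp [adjA, dst] at * <;> omega) (by decide)
  refine le_trans this (le_of_eq ?_)
  push_cast; ring

set_option maxHeartbeats 4000000 in
lemma fam5 : Fam 5 := by
  intro s hs hs1 n
  obtain ⟨b, e, h1, h2, h3⟩ := pell5 (n + 1)
  obtain ⟨P, hP, hE⟩ := fam_E' s hs 5 (![-1, 1, 1, -1, -1, 1, 1, -1, -1, 1] : Fin 10 → ℤ)
    (![0, e, e + 1, b + 2 * e + 1, b + 2 * e + 2, 3 * b + 2 * e + 2, 3 * b + 2 * e + 3, 4 * b + 3 * e + 3,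
      4 * b + 3 * e + 4, 4 * b + 4 * e + 4] : Fin 10 → ℕ)
    (by intro i hi; fin_cases i <;> simp at * <;> omega) (by simp) (by
      intro d hd
      interval_cases d
      · simp [Fin.sum_univ_succ, pz]
      · simp [Fin.sum_univ_succ, pz]; ring
      · simp [Fin.sum_univ_succ, pz]; ring
      · simp [Fin.sum_univ_succ, pz]; linear_combination (6 * ((b:ℤ) + e + 1)) * h3
      · simp [Fin.sum_univ_succ, pz]; linear_combination (6 * ((b:ℤ) + e + 1)) * (8 * ((b:ℤ) + e + 1) - 6) * h3)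
  refine ⟨P, hP, ?_⟩
  rw [hE]
  have := upper s hs hs1 (![-1, 1, 1, -1, -1, 1, 1, -1, -1, 1] : Fin 10 → ℤ)
    (![0, e, e + 1, b + 2 * e + 1, b + 2 * e + 2, 3 * b + 2 * e + 2, 3 * b + 2 * e + 3, 4 * b + 3 * e + 3,
      4 * b + 3 * e + 4, 4 * b + 4 * e + 4] : Fin 10 → ℕ) (adjA 10) n 8
    (by intro i; fin_cases i <;> simp) (by
      intro i k hik; fin_cases i <;> fin_cases k <;> simp [adjA, dst] at * <;> omega) (by decide)
  refine le_trans this (le_of_eq ?_)
  push_cast; ring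



open Polynomial Real MeasureTheory intervalIntegral

lemma J0_eq (s : ℝ) : J s 0 = ∫ θ in (-π)..π, w s θ := by
  unfold J; simp

lemma J0_half (s : ℝ) (hs : 0 ≤ s) : J s 0 = 2 * ∫ θ in (0:ℝ)..π, w s θ := by
  have hw := w_cont s hs
  have h1 : ∫ θ in (-π)..0, w s θ = ∫ θ in (0:ℝ)..π, w s θ := by
    have h := intervalIntegral.integral_comp_neg (a := 0) (b := π) (w s)
    rw [neg_zero] at h
    rw [← h]
    congr 1; ext θ; unfold w; rw [cos_neg]
  rw [J0_eq, ← integral_add_adjacent_intervals (b := 0) (hw.intervalIntegrable _ _) (hw.intervalIntegrable _ _), h1]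
  ring

lemma subst_int (s : ℝ) (hs : 0 < s) :
    ∫ θ in (0:ℝ)..π, ((1 - cos θ) / 2) ^ s = ∫ u in (0:ℝ)..1, bI (s + 1 / 2) (1 / 2) u := by
  have hder : ∀ x : ℝ, HasDerivAt (fun θ : ℝ => (1 - cos θ) / 2) (sin x / 2) x := by
    intro x
    have := ((hasDerivAt_cos x).const_sub 1).div_const 2
    exact this.congr_deriv (by ring)
  have hmap : ∀ x ∈ Set.Ioo (0:ℝ) π, 0 < (1 - cos x) / 2 ∧ (1 - cos x) / 2 < 1 := by
    intro x hx
    have h1 : cos x < 1 := by
      rw [← cos_zero]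
      exact Real.cos_lt_cos_of_nonneg_of_le_pi le_rfl hx.2.le hx.1
    have h2 : -1 < cos x := by
      rw [← cos_pi]
      exact Real.cos_lt_cos_of_nonneg_of_le_pi hx.1.le le_rfl hx.2
    constructor <;> linarith
  have heq : ∀ x ∈ Set.Ioo (0:ℝ) π, (bI (s + 1 / 2) (1 / 2) ∘ fun θ : ℝ => (1 - cos θ) / 2) x * (sin x / 2)
      = ((1 - cos x) / 2) ^ s := by
    intro x hx
    obtain ⟨h1, h2⟩ := hmap x hx
    have hs1 : 0 < sin x := sin_pos_of_pos_of_lt_pi hx.1 hx.2
    simp only [Function.comp, bI]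
    obtain ⟨u, hu⟩ : ∃ u, u = (1 - cos x) / 2 := ⟨_, rfl⟩
    rw [← hu] at h1 h2 ⊢
    have h3 : sin x / 2 = u ^ ((1:ℝ) / 2) * (1 - u) ^ ((1:ℝ) / 2) := by
      rw [← Real.mul_rpow h1.le (by linarith), ← Real.sqrt_eq_rpow]
      symm
      rw [Real.sqrt_eq_iff_mul_self_eq (by nlinarith) (by linarith)]
      rw [hu]
      nlinarith [sin_sq_add_cos_sq x]
    rw [h3]
    have h4 : u ^ (s + 1 / 2 - 1) * u ^ ((1:ℝ) / 2) = u ^ s := by
      rw [← Real.rpow_add h1]; congr 1; ring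
    have h5 : (1 - u) ^ ((1:ℝ) / 2 - 1) * (1 - u) ^ ((1:ℝ) / 2) = 1 := by
      rw [← Real.rpow_add (by linarith)]; norm_num
    calc u ^ (s + 1 / 2 - 1) * (1 - u) ^ ((1:ℝ) / 2 - 1) * (u ^ ((1:ℝ) / 2) * (1 - u) ^ ((1:ℝ) / 2))
        = (u ^ (s + 1 / 2 - 1) * u ^ ((1:ℝ) / 2)) * ((1 - u) ^ ((1:ℝ) / 2 - 1) * (1 - u) ^ ((1:ℝ) / 2)) := by ring
      _ = u ^ s := by rw [h4, h5, mul_one]
  have himg : (fun θ : ℝ => (1 - cos θ) / 2) '' Set.uIcc 0 π ⊆ Set.Icc 0 1 := by
    rintro _ ⟨x, _, rfl⟩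
    simp only
    constructor
    · linarith [cos_le_one x]
    · linarith [neg_one_le_cos x]
  have hcont : Continuous (fun θ : ℝ => (1 - cos θ) / 2) := by fun_prop
  have hbI := bI_int (s + 1 / 2) (1 / 2) (by linarith) (by norm_num)
  rw [intervalIntegrable_iff_integrableOn_Icc_of_le zero_le_one] at hbI
  have key := intervalIntegral.integral_comp_mul_deriv''' (a := 0) (b := π)
    (f := fun θ : ℝ => (1 - cos θ) / 2) (f' := fun x => sin x / 2) (g := bI (s + 1 / 2) (1 / 2))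
    hcont.continuousOn (fun x _ => (hder x).hasDerivWithinAt) (by
      rintro _ ⟨x, hx, rfl⟩
      rw [min_eq_left pi_pos.le, max_eq_right pi_pos.le] at hx
      obtain ⟨h1, h2⟩ := hmap x hx
      apply ContinuousAt.continuousWithinAt
      unfold bI
      apply ContinuousAt.mul
      · exact (Real.continuousAt_rpow_const _ _ (Or.inl h1.ne'))
      · exact ((continuousAt_const.sub continuousAt_id).rpow_const (Or.inl (sub_pos.2 h2).ne')))
    (hbI.mono_set himg) (by
      rw [Set.uIcc_of_le pi_pos.le, integrableOn_Icc_iff_integrableOn_Ioo]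
      have hc : IntegrableOn (fun x : ℝ => ((1 - cos x) / 2) ^ s) (Set.Ioo 0 π) := by
        apply IntegrableOn.mono_set _ Set.Ioo_subset_Icc_self
        apply ContinuousOn.integrableOn_Icc
        apply Continuous.continuousOn
        exact hcont.rpow_const (fun x => Or.inr hs.le)
      exact hc.congr_fun (fun x hx => (heq x hx).symm) measurableSet_Ioo)
  have h0 : (1 - cos (0:ℝ)) / 2 = 0 := by simp
  have h1 : (1 - cos π) / 2 = 1 := by rw [cos_pi]; norm_num
  simp only [h0, h1] at key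
  rw [← key]
  apply intervalIntegral.integral_congr_Ioo_of_le pi_pos.le
  intro x hx
  exact (heq x hx).symm

lemma J0_val (s : ℝ) (hs : 0 < s) : J s 0 = 2 * π * Real.Gamma (2 * s + 1) / Real.Gamma (s + 1) ^ 2 := by
  rw [J0_half s hs.le]
  have h1 : ∀ θ : ℝ, w s θ = 4 ^ s * ((1 - cos θ) / 2) ^ s := by
    intro θ
    unfold w
    rw [← Real.mul_rpow (by norm_num) (by linarith [cos_le_one θ])]
    congr 1; ring
  simp_rw [h1]
  rw [intervalIntegral.integral_const_mul, subst_int s hs, bI_val _ _ (by linarith) (by norm_num)]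
  have e0 : s + 1 / 2 + 1 / 2 = s + 1 := by ring
  have e1 : Real.Gamma (s + 1) = s * Real.Gamma s := Real.Gamma_add_one hs.ne'
  have e2 : Real.Gamma (2 * s + 1) = 2 * s * Real.Gamma (2 * s) := Real.Gamma_add_one (by linarith)
  have e3 := Real.Gamma_mul_Gamma_add_half s
  have g1 : 0 < Real.Gamma s := Real.Gamma_pos_of_pos hs
  have e4 : Real.Gamma (s + 1 / 2) = Real.Gamma (2 * s) * 2 ^ (1 - 2 * s) * √π / Real.Gamma s := by
    rw [eq_div_iff g1.ne', ← e3]; ring
  have e5 : (4:ℝ) ^ s * 2 ^ (1 - 2 * s) = 2 := by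
    rw [show (4:ℝ) = 2 ^ (2:ℝ) by norm_num, ← Real.rpow_mul (by norm_num), ← Real.rpow_add (by norm_num)]
    norm_num
  have e6 : √π * √π = π := Real.mul_self_sqrt pi_pos.le
  rw [e0, Real.Gamma_one_half_eq, e4, e2, e1]
  have : 2 * (4 ^ s * (Real.Gamma (2 * s) * 2 ^ (1 - 2 * s) * √π / Real.Gamma s * √π / (s * Real.Gamma s)))
      = 2 * (4 ^ s * 2 ^ (1 - 2 * s)) * (√π * √π) * Real.Gamma (2 * s) / (Real.Gamma s * (s * Real.Gamma s)) := by
    field_simp
  rw [this, e5, e6]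
  field_simp

/-- closed form of the bound -/
lemma bound_val (m s : ℝ) (hs : 0 < s) : 2 * (m + s) / (1 + s) * J s 0
    = 4 * π * (m + s) * Real.Gamma (2 * s + 1) / (Real.Gamma (s + 1) * Real.Gamma (s + 2)) := by
  rw [J0_val s hs, show s + 2 = (s + 1) + 1 by ring, Real.Gamma_add_one (by linarith : s + 1 ≠ 0)]
  have g1 : 0 < Real.Gamma (s + 1) := Real.Gamma_pos_of_pos (by linarith)
  have : 1 + s ≠ 0 := by linarith
  have : s + 1 ≠ 0 := by linarith
  field_simp
  ring



open Polynomial Real MeasureTheory intervalIntegral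

lemma J_zero_succ (n : ℕ) : J 0 (n + 1) = 0 := by
  induction n with
  | zero =>
    have h := J_rec 0 le_rfl 0
    push_cast at h
    simp only [zero_add] at h
    have : (1 + 0 : ℝ) * J 0 1 = 0 := by rw [h]; ring
    have h3 : J 0 1 = 0 := by linarith
    exact h3
  | succ n ih =>
    have h := J_rec 0 le_rfl (n + 1)
    rw [ih, mul_zero] at h
    have : ((n + 1 : ℕ) : ℝ) + 1 + 0 ≠ 0 := by positivity
    exact (mul_eq_zero.1 h).resolve_left this

lemma J_zero_zero : J 0 0 = 2 * π := by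
  rw [J0_eq]; unfold w; simp; ring

/-- signs of an ideal solution, sorted -/
def sg (K : ℕ) (i : Fin K) : ℤ := if ((K - i.val) / 2) % 2 = 0 then 1 else -1

lemma ideal {K : ℕ} (n : ℕ) (hK : K + 1 = 2 * n) (p : Fin (K + 1) → ℕ)
    (h1 : ∀ i, i ≠ Fin.last K → p i < p (Fin.last K)) (h2 : ∀ i j, i ≠ j → p i ≠ p j)
    (h3 : ∀ d, d < n → ∑ i, sg (K + 1) i * pz d (p i) = 0) :
    ∃ P : ℤ[X], P.Monic ∧ E n P = 4 * π * n := by
  have hl : sg (K + 1) (Fin.last K) = 1 := by
    unfold sg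
    have : (K + 1 - (Fin.last K).val) / 2 % 2 = 0 := by simp
    rw [if_pos this]
  obtain ⟨P, hP, hE⟩ := fam_E' 0 le_rfl n (sg (K + 1)) p h1 hl h3
  refine ⟨P, hP, ?_⟩
  rw [add_zero] at hE
  rw [hE]
  have h4 : ∀ j : Fin (K + 1), ∑ k, (sg (K + 1) j : ℝ) * (sg (K + 1) k : ℝ) * J 0 (dst (p j) (p k)) = 2 * π := by
    intro j
    rw [Finset.sum_eq_single j]
    · rw [show dst (p j) (p j) = 0 by unfold dst; simp, J_zero_zero]
      have : (sg (K + 1) j : ℝ) * (sg (K + 1) j : ℝ) = 1 := by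
        unfold sg; split_ifs <;> norm_num
      rw [this, one_mul]
    · intro k _ hk
      have h5 := h2 k j hk
      obtain ⟨d, hd⟩ : ∃ d, dst (p j) (p k) = d + 1 := ⟨dst (p j) (p k) - 1, by unfold dst; omega⟩
      rw [hd, J_zero_succ, mul_zero]
    · intro h; exact absurd (Finset.mem_univ _) h
  rw [Finset.sum_congr rfl (fun j _ => h4 j)]
  have hK' : ((K : ℝ) + 1) = 2 * n := by exact_mod_cast hK
  simp only [Finset.sum_const, Finset.card_univ, Fintype.card_fin, nsmul_eq_mul]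
  push_cast
  rw [hK']; ring

lemma ideal7 : ∃ P : ℤ[X], P.Monic ∧ E ((7 : ℕ) : ℝ) P = 4 * π * (7 : ℕ) :=
  ideal (K := 13) 7 (by norm_num) ![0, 1, 13, 18, 27, 38, 44, 58, 64, 75, 84, 89, 101, 102]
    (by decide +kernel) (by decide +kernel) (by decide +kernel)
lemma ideal8 : ∃ P : ℤ[X], P.Monic ∧ E ((8 : ℕ) : ℝ) P = 4 * π * (8 : ℕ) :=
  ideal (K := 15) 8 (by norm_num) ![0, 1, 2, 4, 9, 11, 20, 23, 27, 30, 39, 41, 46, 48, 49, 50]
    (by decide +kernel) (by decide +kernel) (by decide +kernel)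
lemma ideal9 : ∃ P : ℤ[X], P.Monic ∧ E ((9 : ℕ) : ℝ) P = 4 * π * (9 : ℕ) :=
  ideal (K := 17) 9 (by norm_num) ![0, 1, 17, 24, 30, 41, 65, 83, 86, 112, 115, 133, 157, 168, 174, 181, 197, 198]
    (by decide +kernel) (by decide +kernel) (by decide +kernel)
lemma ideal10 : ∃ P : ℤ[X], P.Monic ∧ E ((10 : ℕ) : ℝ) P = 4 * π * (10 : ℕ) :=
  ideal (K := 19) 10 (by norm_num) ![0, 12, 2865, 3083, 3301, 3519, 11869, 11893, 23314, 23738, 23762, 24186, 35607,
    35631, 43981, 44199, 44417, 44635, 47488, 47500]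
    (by decide +kernel) (by decide +kernel) (by decide +kernel)
lemma ideal12 : ∃ P : ℤ[X], P.Monic ∧ E ((12 : ℕ) : ℝ) P = 4 * π * (12 : ℕ) :=
  ideal (K := 23) 12 (by norm_num) ![0, 3, 5, 11, 24, 30, 57, 65, 90, 104, 116, 129, 173, 186, 198, 212, 237, 245,
    272, 278, 291, 297, 299, 302]
    (by decide +kernel) (by decide +kernel) (by decide +kernel)

/-- The set of values of the weighted integral over all monic integer polynomials. -/
def values (lam : ℝ) : Set ℝ :=
  {x | ∃ P : Polynomial ℤ, P.Monic ∧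
    x = ∫ θ in (-π)..π, ‖(1 : ℂ) - Complex.exp (θ * Complex.I)‖ ^ (2 * lam)
      * ‖aeval (Complex.exp (θ * Complex.I)) P‖ ^ 2}

lemma val_eq (lam : ℝ) (P : ℤ[X]) : ∫ θ in (-π)..π, ‖(1 : ℂ) - Complex.exp (θ * Complex.I)‖ ^ (2 * lam)
      * ‖aeval (Complex.exp (θ * Complex.I)) P‖ ^ 2 = E lam P := by
  unfold E
  congr 1; ext θ; rw [norm_rpow]

lemma low (m : ℕ) (s : ℝ) (hm : 1 ≤ m) (hs : 0 < s) (hs1 : s ≤ 1) :
    2 * (m + s) / (1 + s) * J s 0 ∈ lowerBounds (values (m + s)) := by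
  rintro x ⟨P, hP, rfl⟩
  rw [val_eq, E_pow s hs.le, E_eq s hs.le _ _ (Nat.lt_succ_self _)]
  exact F_lower' s hs hs1 m hm P hP.ne_zero _ (Nat.lt_succ_self _)

lemma exact_of_fam (m : ℕ) (s : ℝ) (hm : 1 ≤ m) (hs : 0 < s) (hs1 : s ≤ 1) (hf : Fam m) :
    IsGLB (values (m + s)) (2 * (m + s) / (1 + s) * J s 0) := by
  refine ⟨low m s hm hs hs1, ?_⟩
  intro b hb
  have hb' : ∀ n : ℕ, b ≤ 2 * (m + s) / (1 + s) * J s 0 + (2 * m) * (2 * m) * (J s 0 * (1 / ((n : ℝ) + 1))) := by
    intro n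
    obtain ⟨P, hP, hE⟩ := hf s hs.le hs1 n
    have h3 := hb ⟨P, hP, rfl⟩
    rw [val_eq] at h3
    rw [J1_eq s hs.le] at hE
    have e : 2 * (m + s) / (1 + s) * J s 0 = 2 * m * J s 0 + 2 * (m - 1) * (-(s / (1 + s)) * J s 0) := by
      have : (1 + s) ≠ 0 := by linarith
      field_simp; ring
    rw [e, mul_one_div]
    linarith
  have hlim : Filter.Tendsto (fun n : ℕ => 2 * (m + s) / (1 + s) * J s 0 + (2 * m) * (2 * m) * (J s 0 * (1 / ((n : ℝ) + 1))))
      Filter.atTop (nhds (2 * (m + s) / (1 + s) * J s 0 + (2 * m) * (2 * m) * (J s 0 * 0))) :=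
    ((tendsto_one_div_add_atTop_nhds_zero_nat.const_mul _).const_mul _).const_add _
  have := ge_of_tendsto' hlim hb'
  simpa using this

/-- The proposed value of the infimum. -/
noncomputable def V (lam : ℝ) : ℝ :=
  if lam ≤ 1 then 2 * π * Real.Gamma (2 * lam + 1) / Real.Gamma (lam + 1) ^ 2
  else 4 * π * lam * Real.Gamma (2 * Int.fract lam + 1) / (Real.Gamma (Int.fract lam + 1) * Real.Gamma (Int.fract lam + 2))

lemma G1 : Real.Gamma (1 + 1) = 1 := by
  rw [show (1 + 1 : ℝ) = ((1 : ℕ) : ℝ) + 1 by norm_num, Real.Gamma_nat_eq_factorial]; norm_num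

lemma G2 : Real.Gamma (2 * 1 + 1) = 2 := by
  rw [show (2 * 1 + 1 : ℝ) = ((2 : ℕ) : ℝ) + 1 by norm_num, Real.Gamma_nat_eq_factorial]; norm_num

lemma G3 : Real.Gamma (1 + 2) = 2 := by
  rw [show (1 + 2 : ℝ) = ((2 : ℕ) : ℝ) + 1 by norm_num, Real.Gamma_nat_eq_factorial]; norm_num

lemma V_eq (m : ℕ) (s : ℝ) (hm : 1 ≤ m) (hs : 0 < s) (hs1 : s ≤ 1) :
    V (m + s) = 4 * π * (m + s) * Real.Gamma (2 * s + 1) / (Real.Gamma (s + 1) * Real.Gamma (s + 2)) := by
  have hm' : (1 : ℝ) ≤ m := by exact_mod_cast hm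
  unfold V
  rw [if_neg (by linarith)]
  rcases hs1.lt_or_eq with h | rfl
  · have : Int.fract ((m : ℝ) + s) = s := by
      rw [Int.fract_natCast_add, Int.fract_eq_self.2 ⟨hs.le, h⟩]
    rw [this]
  · have : Int.fract ((m : ℝ) + 1) = 0 := by
      rw [Int.fract_add_one, Int.fract_natCast]
    rw [this, G1, G2, G3]
    have e : Real.Gamma (0 + 2) = 1 := by
      rw [show (0 + 2 : ℝ) = 1 + 1 by norm_num, G1]
    rw [e, mul_zero, zero_add, Real.Gamma_one]
    ring

lemma V_nat (n : ℕ) (hn : 2 ≤ n) : V n = 4 * π * n := by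
  obtain ⟨m, rfl⟩ : ∃ m, n = m + 1 := ⟨n - 1, by omega⟩
  have h := V_eq m 1 (by omega) one_pos le_rfl
  rw [G1, G2, G3] at h
  push_cast
  rw [h]; ring

/-- Main theorem. -/
theorem result :
    (∀ lam : ℝ, 0 < lam → V lam ∈ lowerBounds (values lam)) ∧
    (∀ lam : ℝ, 0 < lam → (lam ≤ 6 ∨ lam = 7 ∨ lam = 8 ∨ lam = 9 ∨ lam = 10 ∨ lam = 12) →
      IsGLB (values lam) (V lam)) := by
  have p1 : ∀ lam : ℝ, 0 < lam → lam ≤ 1 → IsLeast (values lam) (V lam) := by
    intro lam h0 h1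
    unfold V
    rw [if_pos h1, ← J0_val lam h0]
    constructor
    · refine ⟨1, monic_one, ?_⟩
      rw [J0_eq]
      congr 1; ext θ; rw [norm_rpow]; simp
    · rintro x ⟨P, hP, rfl⟩
      rw [val_eq, E_eq lam h0.le _ _ (Nat.lt_succ_self _)]
      exact F_ge_one lam h0 h1 _ _ P.natDegree (Nat.lt_succ_self _) (leadingCoeff_ne_zero.2 hP.ne_zero)
  have dec : ∀ lam : ℝ, 1 < lam → ∃ (m : ℕ) (s : ℝ), 1 ≤ m ∧ 0 < s ∧ s ≤ 1 ∧ lam = m + s ∧ (lam ≤ 6 → m ≤ 5) := by
    intro lam h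
    have h1 : lam ≤ ⌈lam⌉₊ := Nat.le_ceil lam
    have h2 : (⌈lam⌉₊ : ℝ) < lam + 1 := Nat.ceil_lt_add_one (by linarith)
    have h3 : 2 ≤ ⌈lam⌉₊ := by
      have : (1 : ℝ) < ⌈lam⌉₊ := lt_of_lt_of_le h h1
      have : 1 < ⌈lam⌉₊ := by exact_mod_cast this
      omega
    have h4 : ((⌈lam⌉₊ - 1 : ℕ) : ℝ) = (⌈lam⌉₊ : ℝ) - 1 := by
      rw [Nat.cast_sub (by omega)]; norm_num
    refine ⟨⌈lam⌉₊ - 1, lam - (⌈lam⌉₊ - 1 : ℕ), by omega, by rw [h4]; linarith, by rw [h4]; linarith, by ring, ?_⟩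
    intro h6
    have : ⌈lam⌉₊ ≤ 6 := Nat.ceil_le.2 (by exact_mod_cast h6)
    omega
  have p2 : ∀ lam : ℝ, 0 < lam → V lam ∈ lowerBounds (values lam) := by
    intro lam h0
    rcases le_or_gt lam 1 with h | h
    · exact (p1 lam h0 h).2
    · obtain ⟨m, s, hm, hs, hs1, rfl, _⟩ := dec lam h
      rw [V_eq m s hm hs hs1, ← bound_val (m : ℝ) s hs]
      exact low m s hm hs hs1
  refine ⟨p2, ?_⟩
  intro lam h0 hlam
  have hint : ∀ n : ℕ, 2 ≤ n → (∃ P : ℤ[X], P.Monic ∧ E n P = 4 * π * n) → IsGLB (values (n : ℝ)) (V n) := by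
    rintro n hn ⟨P, hP, hE⟩
    apply IsLeast.isGLB
    refine ⟨⟨P, hP, by rw [val_eq, hE, V_nat n hn]⟩, p2 n (by positivity)⟩
  rcases hlam with h | rfl | rfl | rfl | rfl | rfl
  · rcases le_or_gt lam 1 with h1 | h1
    · exact (p1 lam h0 h1).isGLB
    · obtain ⟨m, s, hm, hs, hs1, rfl, hm5⟩ := dec lam h1
      have hm5' := hm5 h
      rw [V_eq m s hm hs hs1, ← bound_val (m : ℝ) s hs]
      apply exact_of_fam m s hm hs hs1
      interval_cases m
      · exact fam1
      · exact fam2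
      · exact fam3
      · exact fam4
      · exact fam5
  · exact_mod_cast hint 7 (by norm_num) ideal7
  · exact_mod_cast hint 8 (by norm_num) ideal8
  · exact_mod_cast hint 9 (by norm_num) ideal9
  · exact_mod_cast hint 10 (by norm_num) ideal10
  · exact_mod_cast hint 12 (by norm_num) ideal12


end Pool.Agent.Results.MP_658dbf_an.SharpBoundExactUpToSix
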